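import Pool.Agent.Lib_helper47.WSC.Weak

/-!
# The Banach space (counterexample for MP_4285bb_an)
-/

set_option autoImplicit false
open Finset Filter Topology

namespace Pool.Agent.WSC

/-- the seminormed space -/
def FN : Type := F

noncomputable instance : SeminormedAddCommGroup FN :=
  AddGroupSeminorm.toSeminormedAddCommGroup (E := F) NN.toAddGroupSeminorm

noncomputable instance : Module ℝ FN := inferInstanceAs (Module ℝ F)

noncomputable instance : NormedSpace ℝ FN where
  norm_smul_le a b := (map_smul_eq_mul NN a (b : F)).le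

/-- the Banach space -/
abbrev XX : Type := UniformSpace.Completion FN

/-- the canonical map -/
noncomputable def io : F →ₗ[ℝ] XX :=
  (UniformSpace.Completion.toComplL (𝕜 := ℝ) (E := FN)).toLinearMap

lemma norm_io (x : F) : ‖io x‖ = NN x := UniformSpace.Completion.norm_coe (E := FN) x

lemma dense_io : DenseRange io := UniformSpace.Completion.denseRange_coe (α := FN)

lemma norm_io_le {x : F} (hx : x ∈ B) : ‖io x‖ ≤ 1 := (norm_io x).trans_le (NN_le_one hx)

/-- restriction of functionals is bounded on the ball -/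
lemma dual_bdd (φ : XX →L[ℝ] ℝ) : ∃ C : ℝ, ∀ x ∈ B, |(φ.toLinearMap ∘ₗ io) x| ≤ C :=
  ⟨‖φ‖, fun x hx => by
    have := φ.le_opNorm (io x)
    rw [Real.norm_eq_abs] at this
    refine this.trans ?_
    exact mul_le_of_le_one_right (norm_nonneg _) (norm_io_le hx)⟩

/-- every functional bounded on the ball extends -/
lemma exists_ext {g : F →ₗ[ℝ] ℝ} (hg : ∃ C : ℝ, ∀ x ∈ B, |g x| ≤ C) :
    ∃ φ : XX →L[ℝ] ℝ, ∀ x, φ (io x) = g x := by
  obtain ⟨C, hC⟩ := hg
  refine ⟨g.extendOfNorm io, fun x => LinearMap.extendOfNorm_eq dense_io ⟨C, fun x => ?_⟩ x⟩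
  rw [norm_io, Real.norm_eq_abs]
  exact bound_of_B hC x

/-- the extended alternating form -/
theorem exists_form : ∃ T : XX →L[ℝ] XX →L[ℝ] ℝ, ∀ x y, T (io x) (io y) = om x y := by
  have h1 : ∀ x : F, ∃ C : ℝ, ∀ y ∈ B, |om x y| ≤ C := fun x =>
    BddForm.apply ⟨16, fun x hx y hy => om_bounded hx hy⟩ x
  choose φ hφ using fun x => exists_ext (h1 x)
  have hφu : ∀ (x : F) (ψ : XX →L[ℝ] ℝ), (∀ y, ψ (io y) = om x y) → φ x = ψ := by
    intro x ψ hψ
    apply ContinuousLinearMap.coeFn_injective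
    apply dense_io.equalizer (φ x).continuous ψ.continuous
    funext y
    simp only [Function.comp]
    rw [hφ, hψ]
  let f : F →ₗ[ℝ] (XX →L[ℝ] ℝ) :=
    { toFun := φ
      map_add' := fun x x' => hφu _ _ fun y => by
        rw [ContinuousLinearMap.add_apply, hφ, hφ, map_add, LinearMap.add_apply]
      map_smul' := fun a x => hφu _ _ fun y => by
        rw [RingHom.id_apply, ContinuousLinearMap.smul_apply, hφ, map_smul, LinearMap.smul_apply] }
  have hf : ∀ x, ‖f x‖ ≤ 16 * ‖io x‖ := by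
    intro x
    apply ContinuousLinearMap.opNorm_le_bound _ (by positivity)
    intro z
    refine dense_io.induction_on (p := fun z => ‖f x z‖ ≤ 16 * ‖io x‖ * ‖z‖) z
      (isClosed_le (by fun_prop) (by fun_prop)) ?_
    intro y
    rw [norm_io, norm_io]
    show ‖φ x (io y)‖ ≤ _
    rw [hφ, Real.norm_eq_abs]
    have h2 : ∀ y ∈ B, |om x y| ≤ 16 * NN x := by
      intro y hy
      have h3 := bound_of_B (g := om.flip y) (C := 16) (fun x hx => by
        rw [LinearMap.flip_apply]; exact om_bounded hx hy) x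
      rwa [LinearMap.flip_apply] at h3
    exact bound_of_B (g := om x) h2 y
  refine ⟨f.extendOfNorm io, fun x y => ?_⟩
  rw [LinearMap.extendOfNorm_eq dense_io ⟨16, hf⟩]
  exact hφ x y

/-- weakly null sequences in `XX` -/
def WNull (d : ℕ → XX) : Prop := ∀ φ : XX →L[ℝ] ℝ, Tendsto (fun k => φ (d k)) atTop (𝓝 0)

lemma WNull.bounded {d : ℕ → XX} (h : WNull d) : ∃ C : ℝ, ∀ k, ‖d k‖ ≤ C := by
  have h1 : ∀ φ : StrongDual ℝ XX, ∃ C, ∀ k, ‖NormedSpace.inclusionInDoubleDual ℝ XX (d k) φ‖ ≤ C := by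
    intro φ
    obtain ⟨C, hC⟩ := (h φ).norm.bddAbove_range
    exact ⟨C, fun k => hC ⟨k, rfl⟩⟩
  obtain ⟨C, hC⟩ := banach_steinhaus h1
  refine ⟨C, fun k => ?_⟩
  have := (NormedSpace.inclusionInDoubleDualLi (E := XX) ℝ).norm_map (d k)
  rw [← this]
  exact hC k

/-- approximation by finitely supported vectors in the ball -/
lemma approx {d : ℕ → XX} {C : ℝ} (hC : ∀ k, ‖d k‖ ≤ C) (hC0 : 0 ≤ C) :
    ∃ u : ℕ → F, (∀ k, u k ∈ B) ∧
      Tendsto (fun k => d k - (C + 2) • io (u k)) atTop (𝓝 0) := by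
  have h1 : ∀ k, ∃ x : F, ‖d k - io x‖ < 1 / (k + 1) := by
    intro k
    obtain ⟨x, hx⟩ := Metric.denseRange_iff.1 dense_io (d k) (1 / (k + 1)) (by positivity)
    exact ⟨x, by rwa [dist_eq_norm] at hx⟩
  choose x hx using h1
  refine ⟨fun k => (C + 2)⁻¹ • x k, fun k => ?_, ?_⟩
  · apply mem_B_of_NN
    rw [map_smul_eq_mul, ← norm_io, Real.norm_eq_abs, abs_of_pos (by positivity),
      inv_mul_lt_iff₀ (by positivity)]
    have h2 : ‖io (x k)‖ ≤ ‖d k‖ + ‖d k - io (x k)‖ := by
      have := norm_sub_le (d k) (d k - io (x k))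
      rwa [sub_sub_cancel] at this
    have h3 : (1:ℝ) / (k + 1) ≤ 1 := by
      rw [div_le_one (by positivity)]
      linarith [show (0:ℝ) ≤ k from Nat.cast_nonneg k]
    have := hC k
    have := hx k
    linarith
  · have h4 : ∀ k, d k - (C + 2) • io ((C + 2)⁻¹ • x k) = d k - io (x k) := by
      intro k
      rw [map_smul, smul_smul, mul_inv_cancel₀ (by positivity), one_smul]
    simp_rw [h4]
    exact squeeze_zero_norm (fun k => (hx k).le) tendsto_one_div_add_atTop_nhds_zero_nat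

/-- bounded symmetric forms are null on weakly null sequences -/
theorem sym_wsc (S : XX →L[ℝ] XX →L[ℝ] ℝ) (hsym : ∀ x y, S x y = S y x) {d x : ℕ → XX}
    (hd : WNull d) {C' : ℝ} (hx : ∀ k, ‖x k‖ ≤ C') :
    Tendsto (fun k => S (d k) (x k)) atTop (𝓝 0) := by
  obtain ⟨C, hC⟩ := hd.bounded
  have hC0 : 0 ≤ C := (norm_nonneg _).trans (hC 0)
  have hC0' : 0 ≤ C' := (norm_nonneg _).trans (hx 0)
  obtain ⟨u, hu, hdu⟩ := approx hC hC0
  obtain ⟨v, hv, hxv⟩ := approx hx hC0'
  -- the form on finitely supported vectors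
  let S' : F →ₗ[ℝ] F →ₗ[ℝ] ℝ := (LinearMap.mk₂ ℝ (fun x y => S (io x) (io y))
    (by intro a b c; simp) (by intro a b c; simp) (by intro a b c; simp) (by intro a b c; simp))
  have hS' : ∀ x y, S' x y = S (io x) (io y) := fun _ _ => rfl
  have hbdd : BddForm S' := by
    refine ⟨‖S‖, fun x hx y hy => ?_⟩
    rw [hS', ← Real.norm_eq_abs]
    refine (S.le_opNorm₂ _ _).trans ?_
    have h1 := norm_io_le hx
    have h2 := norm_io_le hy
    have h3 := norm_nonneg S
    have h4 := norm_nonneg (io x)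
    have h5 := norm_nonneg (io y)
    calc ‖S‖ * ‖io x‖ * ‖io y‖ ≤ ‖S‖ * 1 * 1 := by gcongr
      _ = ‖S‖ := by ring
  have h1 : Tendsto (fun k => S' (u k) (v k)) atTop (𝓝 0) := by
    rw [tendsto_iff_ultrafilter]
    intro 𝒰 h𝒰
    apply sym_null (fun x y => by rw [hS', hS', hsym]) hbdd u v hu hv
    intro g hg
    obtain ⟨φ, hφ⟩ := exists_ext hg
    have h2 : ∀ k, g (u k) = (C + 2)⁻¹ * (φ (d k) - φ (d k - (C + 2) • io (u k))) := by
      intro k
      rw [map_sub, map_smul, hφ, smul_eq_mul]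
      field_simp
      ring
    simp_rw [h2]
    have h3 : Tendsto (fun k => φ (d k - (C + 2) • io (u k))) atTop (𝓝 0) := by
      have := (φ.continuous.tendsto 0).comp hdu
      rwa [map_zero] at this
    have h4 := ((hd φ).sub h3).const_mul (C + 2)⁻¹
    rw [sub_zero, mul_zero] at h4
    exact h4.mono_left h𝒰
  have h2 : ∀ k, S (d k) (x k) = S (d k - (C + 2) • io (u k)) (x k) +
      (C + 2) * S (io (u k)) (x k - (C' + 2) • io (v k)) +
      (C + 2) * (C' + 2) * S' (u k) (v k) := by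
    intro k
    rw [hS']
    simp only [map_sub, map_smul, ContinuousLinearMap.sub_apply, ContinuousLinearMap.smul_apply,
      smul_eq_mul]
    ring
  simp_rw [h2]
  have h3 : Tendsto (fun k => S (d k - (C + 2) • io (u k)) (x k)) atTop (𝓝 0) := by
    have h4 : ∀ k, ‖S (d k - (C + 2) • io (u k)) (x k)‖ ≤
        ‖S‖ * ‖d k - (C + 2) • io (u k)‖ * C' := fun k =>
      (S.le_opNorm₂ _ _).trans (mul_le_mul_of_nonneg_left (hx k) (by positivity))
    refine squeeze_zero_norm h4 ?_
    have := ((hdu.norm).const_mul ‖S‖).mul_const C'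
    simpa using this
  have h4 : Tendsto (fun k => S (io (u k)) (x k - (C' + 2) • io (v k))) atTop (𝓝 0) := by
    have h5 : ∀ k, ‖S (io (u k)) (x k - (C' + 2) • io (v k))‖ ≤
        ‖S‖ * 1 * ‖x k - (C' + 2) • io (v k)‖ := fun k =>
      (S.le_opNorm₂ _ _).trans (by
        have := norm_io_le (hu k)
        gcongr)
    refine squeeze_zero_norm h5 ?_
    have := (hxv.norm).const_mul (‖S‖ * 1)
    simpa using this
  have := (h3.add (h4.const_mul (C + 2))).add (h1.const_mul ((C + 2) * (C' + 2)))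
  simpa using this

/-- the unit vectors are weakly null -/
lemma e_wnull (c : Bool) : WNull (fun k => io (e k c)) := by
  intro φ
  obtain ⟨C, hC⟩ := dual_bdd φ
  rw [Metric.tendsto_atTop]
  intro ε hε
  obtain ⟨m, hm⟩ := tree_small _ hC 0 (half_pos hε)
  refine ⟨m, fun k hk => ?_⟩
  have := hm (Tr.leaf k c) trivial hk
  rw [Real.dist_eq, sub_zero]
  exact lt_of_le_of_lt this (half_lt_self hε)

end Pool.Agent.WSC
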