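import Pool.Agent.Lib_helper47.WSC.Refl

/-!
# Reflexivity and conclusion (counterexample for MP_4285bb_an)
-/

set_option autoImplicit false
open Finset Filter Topology

namespace Pool.Agent.WSC

lemma rep_data {s : Finset (ℕ × ℕ)} {x : F} (h : Rep 1 s x) :
    ∃ (c : ℕ × ℕ → ℝ) (b : ℕ × ℕ → F), (∀ α, 0 ≤ c α) ∧ (∀ α, c α ≤ 1) ∧ (∀ α, b α ∈ Ba α) ∧
      (∀ J : Finset (ℕ × ℕ), ∑ α ∈ J, c α ^ 4 ≤ 1) ∧
      (∀ J : Finset (ℕ × ℕ), ∃ y, Rep 1 (s \ J) y ∧ x = ∑ α ∈ J, c α • b α + y) := by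
  obtain ⟨c, b, hc, hb, h1, rfl⟩ := h
  have hle : ∀ α ∈ s, c α ≤ 1 := fun α hα => Rep.le_one h1 hα
  refine ⟨fun α => if α ∈ s then c α else 0, b, ?_, ?_, hb, ?_, ?_⟩
  · intro α
    dsimp only
    split_ifs with h
    · exact hc α
    · exact le_refl _
  · intro α
    dsimp only
    split_ifs with h
    · exact hle α h
    · exact zero_le_one
  · intro J
    have h2 : ∑ α ∈ J, (if α ∈ s then c α else 0) ^ 4 = ∑ α ∈ s ∩ J, c α ^ 4 := by
      have : ∀ α, (if α ∈ s then c α else 0) ^ 4 = if α ∈ s then c α ^ 4 else 0 := by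
        intro α; split_ifs <;> simp
      simp_rw [this]
      rw [← Finset.sum_filter]
      apply Finset.sum_congr _ (fun _ _ => rfl)
      ext α; simp [and_comm]
    rw [h2]
    exact (Finset.sum_le_sum_of_subset_of_nonneg Finset.inter_subset_left
      (fun α _ _ => by have := hc α; positivity)).trans h1
  · intro J
    refine ⟨∑ α ∈ s \ J, c α • b α, ?_, ?_⟩
    · exact ⟨c, b, hc, hb, (Finset.sum_le_sum_of_subset_of_nonneg Finset.sdiff_subset
        (fun α _ _ => by have := hc α; positivity)).trans h1, rfl⟩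
    · have h2 : ∑ α ∈ J, (if α ∈ s then c α else 0) • b α = ∑ α ∈ s ∩ J, c α • b α := by
        simp_rw [ite_smul, zero_smul]
        rw [← Finset.sum_filter]
        apply Finset.sum_congr _ (fun _ _ => rfl)
        ext α; simp [and_comm]
      rw [h2, Finset.sum_inter_add_sum_sdiff]

lemma data_all (x : F) :
    ∃ (c : ℕ × ℕ → ℝ) (b : ℕ × ℕ → F) (s : Finset (ℕ × ℕ)), (∀ α, 0 ≤ c α) ∧ (∀ α, c α ≤ 1) ∧
      (∀ α, b α ∈ Ba α) ∧ (∀ J : Finset (ℕ × ℕ), ∑ α ∈ J, c α ^ 4 ≤ 1) ∧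
      (x ∈ B → ∀ J : Finset (ℕ × ℕ), ∃ y, Rep 1 (s \ J) y ∧ x = ∑ α ∈ J, c α • b α + y) := by
  by_cases hx : x ∈ B
  · obtain ⟨s, hs⟩ := hx
    obtain ⟨c, b, h1, h2, h3, h4, h5⟩ := rep_data hs
    exact ⟨c, b, s, h1, h2, h3, h4, fun _ => h5⟩
  · exact ⟨fun _ => 0, fun _ => 0, ∅, fun _ => le_refl _, fun _ => zero_le_one,
      fun α => Ba_zero α, fun J => by simp, fun h => absurd h hx⟩

lemma Ba_smul {α : ℕ × ℕ} {b : F} (hb : b ∈ Ba α) {c : ℝ} (h0 : 0 ≤ c) (h1 : c ≤ 1) :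
    c • b ∈ Ba α := by
  have := Ba_convex α hb (Ba_zero α) (a := c) (b := 1 - c) h0 (by linarith) (by ring)
  simpa using this

/-- reflexivity on the unit ball of the bidual -/
theorem refl_unit (ξ : StrongDual ℝ (StrongDual ℝ XX)) (hξ : ‖ξ‖ ≤ 1) :
    ∃ x : XX, ∀ φ : StrongDual ℝ XX, φ x = ξ φ := by
  obtain ⟨𝒱, hB, hlim⟩ := goldstine ξ hξ
  have hne : (𝒱 : Filter F).NeBot := 𝒱.neBot
  choose c b s hc0 hc1 hb hsum hdec using data_all
  -- limits of the blocks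
  have h1 : ∀ α : ℕ × ℕ, ∃ x : XX, ∀ φ : StrongDual ℝ XX,
      Tendsto (fun ω => φ (io (c ω α • b ω α))) 𝒱 (𝓝 (φ x)) := fun α =>
    block_lim α (fun ω => c ω α • b ω α) (fun ω => Ba_smul (hb ω α) (hc0 ω α) (hc1 ω α))
  choose xa hxa using h1
  have h2 : ∀ α : ℕ × ℕ, ∃ l : ℝ, Tendsto (fun ω => c ω α) 𝒱 (𝓝 l) := fun α =>
    ultra_lim _ (C := 1) (fun ω => by rw [abs_of_nonneg (hc0 ω α)]; exact hc1 ω α)
  choose t ht using h2
  have hsumlim : ∀ D : Finset (ℕ × ℕ), Tendsto (fun ω => ∑ α ∈ D, c ω α ^ 4) 𝒱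
      (𝓝 (∑ α ∈ D, t α ^ 4)) := fun D => tendsto_finsetSum _ fun α _ => (ht α).pow 4
  have hφlim : ∀ (φ : StrongDual ℝ XX) (D : Finset (ℕ × ℕ)),
      Tendsto (fun ω => φ (io (∑ α ∈ D, c ω α • b ω α))) 𝒱 (𝓝 (∑ α ∈ D, φ (xa α))) := by
    intro φ D
    have h3 : Tendsto (fun ω => ∑ α ∈ D, φ (io (c ω α • b ω α))) 𝒱 (𝓝 (∑ α ∈ D, φ (xa α))) :=
      tendsto_finsetSum _ fun α _ => hxa α φ
    refine h3.congr fun ω => ?_
    rw [map_sum, map_sum]
  -- norm bound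
  have hbound : ∀ (D : Finset (ℕ × ℕ)) (θ : ℝ), 0 < θ → ∑ α ∈ D, t α ^ 4 < θ ^ 4 →
      ‖∑ α ∈ D, xa α‖ ≤ θ := by
    intro D θ hθ hD
    apply NormedSpace.norm_le_dual_bound ℝ _ hθ.le
    intro φ
    have h4 := hφlim φ D
    rw [← map_sum] at h4
    refine le_of_tendsto h4.norm ?_
    have h5 : ∀ᶠ ω in (𝒱 : Filter F), ∑ α ∈ D, c ω α ^ 4 < θ ^ 4 :=
      (hsumlim D).eventually_lt_const hD
    filter_upwards [h5] with ω hω
    have h6 : Rep (θ ^ 4) D (∑ α ∈ D, c ω α • b ω α) := ⟨c ω, b ω, hc0 ω, hb ω, hω.le, rfl⟩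
    have h7 := h6.smul (a := θ⁻¹) (by positivity)
    rw [← mul_pow, inv_mul_cancel₀ hθ.ne', one_pow] at h7
    have h8 := NN_le_one h7.mem_B
    rw [map_smul_eq_mul, Real.norm_eq_abs, abs_of_pos (by positivity), inv_mul_le_iff₀ hθ,
      mul_one] at h8
    refine (φ.le_opNorm _).trans ?_
    rw [norm_io, mul_comm]
    gcongr
  have ht0 : ∀ α, 0 ≤ t α ^ 4 := fun α => by positivity
  have hts : Summable (fun α => t α ^ 4) := by
    apply summable_of_sum_le ht0 (c := 1)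
    intro D
    exact le_of_tendsto (hsumlim D) (Eventually.of_forall fun ω => hsum ω D)
  have hxs : Summable xa := by
    rw [summable_iff_vanishing_norm]
    intro ε hε
    have h3 := summable_iff_vanishing_norm.1 hts ((ε / 2) ^ 4) (by positivity)
    obtain ⟨S, hS⟩ := h3
    refine ⟨S, fun D hD => ?_⟩
    have h4 := hS D hD
    rw [Real.norm_eq_abs] at h4
    exact lt_of_le_of_lt (hbound D (ε / 2) (by positivity) ((le_abs_self _).trans_lt h4))
      (half_lt_self hε)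
  refine ⟨∑' α, xa α, fun φ => ?_⟩
  have hφs : HasSum (fun α => φ (xa α)) (φ (∑' α, xa α)) := hxs.hasSum.mapL φ
  have key : ∀ ε : ℝ, 0 < ε → |φ (∑' α, xa α) - ξ φ| ≤ ε + ε := by
    intro ε hε
    obtain ⟨C, hC⟩ := dual_bdd φ
    obtain ⟨J, hJ⟩ := off_small _ hC hε
    have h3 : ∀ᶠ D in (atTop : Filter (Finset (ℕ × ℕ))),
        |∑ α ∈ D, φ (xa α) - φ (∑' α, xa α)| < ε := by
      have := Metric.tendsto_nhds.1 hφs ε hε
      simpa only [Real.dist_eq, SummationFilter.unconditional_filter] using this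
    obtain ⟨D, hD1, hD2⟩ := (h3.and (eventually_ge_atTop J)).exists
    have h4 : |ξ φ - ∑ α ∈ D, φ (xa α)| ≤ ε := by
      have h5 := ((hlim φ).sub (hφlim φ D)).abs
      refine le_of_tendsto h5 ?_
      filter_upwards [hB] with ω hω
      obtain ⟨y, hy, hdecy⟩ := hdec ω hω D
      have h6 : φ (io ω) - φ (io (∑ α ∈ D, c ω α • b ω α)) = φ (io y) := by
        have h7 := congrArg (fun z => φ (io z)) hdecy
        simp only [map_add] at h7
        rw [h7]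
        simp only [map_sum]
        ring
      rw [h6]
      exact hJ _ y (Finset.disjoint_of_subset_right hD2 Finset.sdiff_disjoint) hy
    have h5 : |φ (∑' α, xa α) - ξ φ| ≤ |∑ α ∈ D, φ (xa α) - φ (∑' α, xa α)| +
        |ξ φ - ∑ α ∈ D, φ (xa α)| := by
      have : φ (∑' α, xa α) - ξ φ = -((∑ α ∈ D, φ (xa α) - φ (∑' α, xa α)) +
        (ξ φ - ∑ α ∈ D, φ (xa α))) := by ring
      rw [this, abs_neg]
      exact abs_add_le _ _
    linarith
  by_contra hne'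
  have h2 : 0 < |φ (∑' α, xa α) - ξ φ| := abs_pos.2 (sub_ne_zero.2 hne')
  have := key (|φ (∑' α, xa α) - ξ φ| / 3) (by positivity)
  linarith

/-- the space is reflexive -/
theorem reflexive : Function.Surjective (NormedSpace.inclusionInDoubleDual ℝ XX) := by
  intro ξ
  have hr : (0:ℝ) < ‖ξ‖ + 1 := by positivity
  obtain ⟨x, hx⟩ := refl_unit ((‖ξ‖ + 1)⁻¹ • ξ) (by
    apply ContinuousLinearMap.opNorm_le_bound _ zero_le_one
    intro φ
    rw [ContinuousLinearMap.smul_apply, norm_smul, norm_inv, Real.norm_eq_abs, abs_of_pos hr,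
      inv_mul_le_iff₀ hr, one_mul]
    refine (ξ.le_opNorm φ).trans ?_
    have := norm_nonneg φ
    nlinarith)
  refine ⟨(‖ξ‖ + 1) • x, ?_⟩
  ext φ
  rw [NormedSpace.dual_def, map_smul, hx, ContinuousLinearMap.smul_apply, smul_smul,
    mul_inv_cancel₀ hr.ne', one_smul]

end Pool.Agent.WSC
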