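import Pool.Agent.Lib_helper47.WSC.Spec

/-!
# The generating classes (counterexample for MP_4285bb_an)
-/

set_option autoImplicit false
open Finset

namespace Pool.Agent.WSC

/-- the Hilbert space -/
abbrev H : Type := lp (fun _ : ℕ × Bool => ℝ) 2

/-- embedding of the finitely supported vectors in the Hilbert space -/
noncomputable def toH : F →ₗ[ℝ] H :=
  Finsupp.linearCombination ℝ (fun p : ℕ × Bool => (lp.single 2 p (1:ℝ) : H))

lemma toH_e (m : ℕ) (c : Bool) : toH (e m c) = lp.single 2 (m, c) (1:ℝ) := by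
  simp [toH, e, Finsupp.linearCombination_single]

/-- the inner product -/
noncomputable def ip : F →ₗ[ℝ] F →ₗ[ℝ] ℝ := (innerₗ H).compl₁₂ toH toH

lemma ip_apply (x y : F) : ip x y = inner ℝ (toH x) (toH y) := rfl

lemma ip_e (m : ℕ) (c : Bool) (m' : ℕ) (c' : Bool) :
    ip (e m c) (e m' c') = if (m, c) = (m', c') then 1 else 0 := by
  rw [ip_apply, toH_e, toH_e, lp.inner_single_left]
  rw [lp.single_apply]
  by_cases h : (m, c) = (m', c')
  · rw [if_pos h]; rw [h]; simp
  · rw [if_neg h]; rw [Pi.single_eq_of_ne h]; simp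

lemma ip_ctrl : Ctrl ip := by
  intro m c m' c'
  rw [ip_e]
  by_cases h : (m, c) = (m', c')
  · rw [if_pos h, if_pos (Prod.ext_iff.1 h).1]; simp
  · rw [if_neg h]; split_ifs <;> simp

/-- the swap -/
noncomputable def sw : F →ₗ[ℝ] F :=
  Finsupp.linearCombination ℝ (fun p : ℕ × Bool => (if p.2 then (-1:ℝ) else 1) • e p.1 (!p.2))

lemma sw_e (m : ℕ) (c : Bool) : sw (e m c) = (if c then (-1:ℝ) else 1) • e m (!c) := by
  simp [sw, e, Finsupp.linearCombination_single]

/-- the alternating form -/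
noncomputable def om : F →ₗ[ℝ] F →ₗ[ℝ] ℝ := ip.compl₁₂ sw LinearMap.id

lemma om_apply (x y : F) : om x y = ip (sw x) y := rfl

lemma om_e (m : ℕ) (c : Bool) (m' : ℕ) (c' : Bool) :
    om (e m c) (e m' c') = if (m, !c) = (m', c') then (if c then (-1:ℝ) else 1) else 0 := by
  rw [om_apply, sw_e, map_smul, LinearMap.smul_apply, ip_e]
  by_cases h : (m, !c) = (m', c')
  · rw [if_pos h, if_pos h]; simp
  · rw [if_neg h, if_neg h]; simp

lemma om_ctrl : Ctrl om := by
  intro m c m' c'
  rw [om_e]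
  by_cases h : (m, !c) = (m', c')
  · rw [if_pos h, if_pos (Prod.ext_iff.1 h).1]
    split_ifs <;> simp
  · rw [if_neg h]; split_ifs <;> simp

lemma bil_ext {β γ : F →ₗ[ℝ] F →ₗ[ℝ] ℝ}
    (h : ∀ m c m' c', β (e m c) (e m' c') = γ (e m c) (e m' c')) : β = γ := by
  apply Finsupp.lhom_ext'
  rintro ⟨m, c⟩
  apply LinearMap.ext_ring
  apply Finsupp.lhom_ext'
  rintro ⟨m', c'⟩
  apply LinearMap.ext_ring
  exact h m c m' c'

lemma om_flip : om.flip = -om := by
  apply bil_ext
  intro m c m' c'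
  rw [LinearMap.flip_apply, LinearMap.neg_apply, LinearMap.neg_apply, om_e, om_e]
  by_cases hm : m = m'
  · subst hm
    cases c <;> cases c' <;> simp
  · rw [if_neg (fun h => hm (Prod.ext_iff.1 h).1.symm), if_neg (fun h => hm (Prod.ext_iff.1 h).1)]
    simp

lemma om_self (x : F) : om x x = 0 := by
  have h : om.flip x x = (-om) x x := by rw [om_flip]
  rw [LinearMap.flip_apply, LinearMap.neg_apply, LinearMap.neg_apply] at h
  linarith

lemma sw_ip : ip.compl₁₂ sw sw = ip := by
  apply bil_ext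
  intro m c m' c'
  rw [LinearMap.compl₁₂_apply, sw_e, sw_e, map_smul, map_smul, LinearMap.smul_apply, ip_e, ip_e]
  by_cases hm : m = m'
  · subst hm
    cases c <;> cases c' <;> simp
  · rw [if_neg (fun h => hm (Prod.ext_iff.1 h).1), if_neg (fun h => hm (Prod.ext_iff.1 h).1)]
    simp

lemma norm_sw (x : F) : ‖toH (sw x)‖ = ‖toH x‖ := by
  have h : ip (sw x) (sw x) = ip x x := by
    conv_rhs => rw [← sw_ip]
    rfl
  rw [ip_apply, ip_apply, real_inner_self_eq_norm_sq, real_inner_self_eq_norm_sq] at h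
  exact (sq_eq_sq₀ (norm_nonneg _) (norm_nonneg _)).1 h

lemma om_le (x y : F) : |om x y| ≤ ‖toH x‖ * ‖toH y‖ := by
  rw [om_apply, ip_apply, ← norm_sw x]
  exact abs_real_inner_le_norm _ _

/-! ### the classes -/

/-- generating classes -/
def Gam : ℕ → Set F
  | 0 => {x | ∃ m c, x = e m c}
  | j + 1 => {x | ∃ τ : List Tr, Spec j τ ∧ τ.length ≤ len j ∧ x = (nu j : ℝ)⁻¹ • vec τ}

/-- bounds of the classes in the Hilbert space -/
noncomputable def R : ℕ → ℝ
  | 0 => 1
  | j + 1 => 2 * 6 ^ j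

lemma R_pos (i : ℕ) : 0 < R i := by
  cases i with
  | zero => exact one_pos
  | succ j => unfold R; positivity

theorem gam_norm {i : ℕ} {x : F} (hx : x ∈ Gam i) : ‖toH x‖ ≤ R i := by
  cases i with
  | zero =>
    obtain ⟨m, c, rfl⟩ := hx
    have h : ip (e m c) (e m c) = 1 := by rw [ip_e]; simp
    rw [ip_apply, real_inner_self_eq_norm_sq] at h
    have : ‖toH (e m c)‖ = 1 := by
      have := (sq_eq_sq₀ (norm_nonneg (toH (e m c))) (zero_le_one)).1 (by rw [h]; norm_num)
      exact this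
    rw [this]; exact le_refl _
  | succ j =>
    obtain ⟨τ, hτ, hlen, rfl⟩ := hx
    have h1 := norm_class ip_ctrl j τ hτ
    rw [ip_apply, real_inner_self_eq_norm_sq, abs_of_nonneg (sq_nonneg _)] at h1
    have h2 : (τ.length : ℝ) ≤ len j := by exact_mod_cast hlen
    have h3 := (len_co j).2
    have h4 : (1:ℝ) ≤ len j := by exact_mod_cast len_pos j
    have hco := (co_pos (j + 1)).le
    have h5 : ‖toH (vec τ)‖ ^ 2 ≤ 9 ^ j * (2 * len j) := by
      refine h1.trans ?_
      apply mul_le_mul_of_nonneg_left _ (by positivity)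
      have : (τ.length : ℝ) ^ 2 * co (j + 1) ≤ (len j : ℝ) ^ 2 * co (j + 1) := by gcongr
      linarith
    have hnu : (0:ℝ) < nu j := by exact_mod_cast nu_pos j
    rw [map_smul, norm_smul, Real.norm_eq_abs, abs_of_pos (by positivity)]
    have h6 : ((nu j : ℝ)⁻¹ * ‖toH (vec τ)‖) ^ 2 ≤ (R (j + 1)) ^ 2 := by
      rw [mul_pow]
      calc ((nu j : ℝ)⁻¹) ^ 2 * ‖toH (vec τ)‖ ^ 2 ≤ ((nu j : ℝ)⁻¹) ^ 2 * (9 ^ j * (2 * len j)) := by
            gcongr
        _ = 2 * 36 ^ j := by
            unfold len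
            push_cast
            rw [show (36:ℝ) = 9 * 4 by norm_num, mul_pow]
            field_simp
        _ ≤ (R (j + 1)) ^ 2 := by
            unfold R
            rw [mul_pow, ← pow_mul, mul_comm j 2, pow_mul]
            norm_num
    exact le_of_sq_le_sq h6 (R_pos _).le

lemma two_pow_cast (a : ℕ) : (2:ℝ) ^ a = ((2 ^ a : ℕ) : ℝ) := by push_cast; rfl

theorem gam_om_le {i j : ℕ} (hij : i ≤ j) {x y : F} (hx : x ∈ Gam i) (hy : y ∈ Gam j) :
    |om x y| * (R i * R j) ≤ (1 / 16) ^ (i + j) := by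
  cases j with
  | zero =>
    have : i = 0 := by omega
    subst this
    obtain ⟨m, c, rfl⟩ := hx
    obtain ⟨m', c', rfl⟩ := hy
    have h1 := om_ctrl m c m' c'
    have h2 : |om (e m c) (e m' c')| ≤ 1 := h1.trans (by split_ifs <;> norm_num)
    simpa [R] using h2
  | succ j =>
    obtain ⟨τ', hτ', hlen', rfl⟩ := hy
    have hnu : (0:ℝ) < nu j := by exact_mod_cast nu_pos j
    cases i with
    | zero =>
      obtain ⟨m, c, rfl⟩ := hx
      have h1 := (TT_all om_ctrl hτ' hlen' (Tr.leaf m c) (n := 0) (Nat.zero_le _) trivial).2.2 rfl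
      have h2 := (abs_le_TT om (Tr.leaf m c) τ').trans h1
      rw [map_smul, smul_eq_mul, abs_mul, abs_of_pos (by positivity)]
      have h3 : |om (e m c) (vec τ')| ≤ 2 * 9 ^ j := h2
      have h4 : (4:ℝ) * 54 ^ j * 16 ^ (j + 1) ≤ nu j := by
        have : 4 * 54 ^ j * 16 ^ (j + 1) ≤ nu j := by
          calc 4 * 54 ^ j * 16 ^ (j + 1) ≤ 2 ^ 2 * (2 ^ 6) ^ j * (2 ^ 4) ^ (j + 1) := by
                gcongr <;> norm_num
            _ = 2 ^ (2 + 6 * j + 4 * (j + 1)) := by rw [← pow_mul, ← pow_mul, ← pow_add, ← pow_add]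
            _ ≤ nu j := by
                unfold nu
                apply Nat.pow_le_pow_right (by norm_num)
                have : j < 8 ^ j := Nat.lt_pow_self (by norm_num)
                omega
        exact_mod_cast this
      have hR : R 0 * R (j + 1) = 2 * 6 ^ j := by simp [R]
      rw [hR]
      calc (nu j : ℝ)⁻¹ * |om (e m c) (vec τ')| * (2 * 6 ^ j)
          ≤ (nu j : ℝ)⁻¹ * (2 * 9 ^ j) * (2 * 6 ^ j) := by gcongr
        _ = (nu j : ℝ)⁻¹ * (4 * 54 ^ j) := by
            rw [show (54:ℝ) = 9 * 6 by norm_num, mul_pow]; ring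
        _ ≤ (1 / 16) ^ (0 + (j + 1)) := by
            rw [zero_add, one_div, inv_pow, inv_mul_le_iff₀ hnu, ← div_eq_mul_inv,
              le_div_iff₀ (by positivity)]
            exact h4
    | succ i =>
      obtain ⟨τ, hτ, hlen, rfl⟩ := hx
      have hnui : (0:ℝ) < nu i := by exact_mod_cast nu_pos i
      rw [map_smul, map_smul om, LinearMap.smul_apply, smul_eq_mul, smul_eq_mul, abs_mul, abs_mul,
        abs_of_pos (show (0:ℝ) < (nu i : ℝ)⁻¹ by positivity),
        abs_of_pos (show (0:ℝ) < (nu j : ℝ)⁻¹ by positivity)]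
      have hR : R (i + 1) * R (j + 1) = 4 * (6 ^ i * 6 ^ j) := by simp [R]; ring
      rw [hR]
      rcases Nat.lt_or_ge i j with hlt | hge
      · -- different classes
        have h1 := cross_class om_ctrl hlt.le hτ hτ' hlen'
        have h2 : (τ.length : ℝ) ≤ 4 ^ i * nu i ^ 2 := by
          have : τ.length ≤ 4 ^ i * nu i ^ 2 := hlen
          exact_mod_cast this
        have hG : (0:ℝ) < G j 0 := by exact_mod_cast G_pos j 0
        have h3 : |om (vec τ) (vec τ')| ≤ 4 ^ i * nu i ^ 2 * (2 * 9 ^ j * G j 0) := by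
          refine h1.trans ?_
          gcongr
        have h4 : (8:ℝ) * nu i * (4 ^ i * 9 ^ j * (6 ^ i * 6 ^ j)) * G j 0 * 16 ^ (i + 1 + (j + 1)) ≤ nu j := by
          have : 8 * nu i * (4 ^ i * 9 ^ j * (6 ^ i * 6 ^ j)) * G j 0 * 16 ^ (i + 1 + (j + 1)) ≤ nu j := by
            calc 8 * nu i * (4 ^ i * 9 ^ j * (6 ^ i * 6 ^ j)) * G j 0 * 16 ^ (i + 1 + (j + 1))
                ≤ 2 ^ 3 * 2 ^ (124 * 8 ^ i) * ((2 ^ 2) ^ i * (2 ^ 4) ^ j * ((2 ^ 3) ^ i * (2 ^ 3) ^ j))
                  * 2 ^ (74 * 8 ^ j + j) * (2 ^ 4) ^ (i + 1 + (j + 1)) := by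
                  have := G_le j
                  unfold nu
                  gcongr <;> norm_num
              _ = 2 ^ (3 + 124 * 8 ^ i + (2 * i + 4 * j + (3 * i + 3 * j)) + (74 * 8 ^ j + j)
                    + 4 * (i + 1 + (j + 1))) := by
                  simp only [← pow_mul, ← pow_add]
              _ ≤ nu j := by
                  unfold nu
                  apply Nat.pow_le_pow_right (by norm_num)
                  obtain ⟨k, rfl⟩ : ∃ k, j = k + 1 := ⟨j - 1, by omega⟩
                  have h5 : k < 8 ^ k := Nat.lt_pow_self (by norm_num)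
                  have h6 : 8 ^ i ≤ 8 ^ k := Nat.pow_le_pow_right (by norm_num) (by omega)
                  rw [pow_succ]
                  omega
          exact_mod_cast this
        calc (nu j : ℝ)⁻¹ * ((nu i : ℝ)⁻¹ * |om (vec τ) (vec τ')|) * (4 * (6 ^ i * 6 ^ j))
            ≤ (nu j : ℝ)⁻¹ * ((nu i : ℝ)⁻¹ * (4 ^ i * nu i ^ 2 * (2 * 9 ^ j * G j 0))) * (4 * (6 ^ i * 6 ^ j)) := by
              gcongr
          _ = (nu j : ℝ)⁻¹ * (8 * nu i * (4 ^ i * 9 ^ j * (6 ^ i * 6 ^ j)) * G j 0) := by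
              field_simp
              ring
          _ ≤ (1 / 16) ^ (i + 1 + (j + 1)) := by
              rw [one_div, inv_pow, inv_mul_le_iff₀ hnu, ← div_eq_mul_inv,
                le_div_iff₀ (by positivity)]
              exact h4
      · -- same class
        have hij' : i = j := by omega
        subst hij'
        have h1 := same_class om_ctrl om_self i _ τ τ' rfl hτ hτ'
        have h2 : |om (vec τ) (vec τ')| ≤ 9 ^ i * 2 := by
          refine h1.trans ?_
          apply mul_le_mul_of_nonneg_left _ (by positivity)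
          have h3 : (τ.length : ℝ) ≤ len i := by exact_mod_cast hlen
          have h4 : (τ'.length : ℝ) ≤ len i := by exact_mod_cast hlen'
          have h5 : (τ.length : ℝ) * τ'.length * co (i + 1) ≤ len i * len i * co (i + 1) := by
            have := (co_pos (i + 1)).le
            gcongr
          have h6 := (len_co i).2
          nlinarith
        have h4 : (8:ℝ) * (9 ^ i * (6 ^ i * 6 ^ i)) * 16 ^ (i + 1 + (i + 1)) ≤ nu i := by
          have : 8 * (9 ^ i * (6 ^ i * 6 ^ i)) * 16 ^ (i + 1 + (i + 1)) ≤ nu i := by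
            calc 8 * (9 ^ i * (6 ^ i * 6 ^ i)) * 16 ^ (i + 1 + (i + 1))
                ≤ 2 ^ 3 * ((2 ^ 4) ^ i * ((2 ^ 3) ^ i * (2 ^ 3) ^ i)) * (2 ^ 4) ^ (i + 1 + (i + 1)) := by
                  gcongr <;> norm_num
              _ = 2 ^ (3 + (4 * i + (3 * i + 3 * i)) + 4 * (i + 1 + (i + 1))) := by
                  simp only [← pow_mul, ← pow_add]
              _ ≤ nu i := by
                  unfold nu
                  apply Nat.pow_le_pow_right (by norm_num)
                  have h5 : i < 8 ^ i := Nat.lt_pow_self (by norm_num)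
                  omega
          exact_mod_cast this
        have hnu1 : (1:ℝ) ≤ nu i := by exact_mod_cast nu_pos i
        calc (nu i : ℝ)⁻¹ * ((nu i : ℝ)⁻¹ * |om (vec τ) (vec τ')|) * (4 * (6 ^ i * 6 ^ i))
            ≤ (nu i : ℝ)⁻¹ * (1 * (9 ^ i * 2)) * (4 * (6 ^ i * 6 ^ i)) := by
              gcongr
              exact inv_le_one_of_one_le₀ hnu1
          _ = (nu i : ℝ)⁻¹ * (8 * (9 ^ i * (6 ^ i * 6 ^ i))) := by ring
          _ ≤ (1 / 16) ^ (i + 1 + (i + 1)) := by
              rw [one_div, inv_pow, inv_mul_le_iff₀ hnu, ← div_eq_mul_inv,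
                le_div_iff₀ (by positivity)]
              exact h4

theorem gam_om {i j : ℕ} {x y : F} (hx : x ∈ Gam i) (hy : y ∈ Gam j) :
    |om x y| * (R i * R j) ≤ (1 / 16) ^ (i + j) := by
  rcases le_total i j with h | h
  · exact gam_om_le h hx hy
  · have h1 := gam_om_le h hy hx
    have h2 : om.flip x y = (-om) x y := by rw [om_flip]
    rw [LinearMap.flip_apply, LinearMap.neg_apply, LinearMap.neg_apply] at h2
    rw [h2, abs_neg, mul_comm (R j), add_comm j] at h1
    exact h1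

end Pool.Agent.WSC
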