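import Pool.Agent.Lib_helper47.WSC.Space

/-!
# Basic estimates for bounded forms (counterexample for MP_4285bb_an)
-/

set_option autoImplicit false
open Finset

namespace Pool.Agent.WSC

/-- choice of signs -/
theorem signs (S : F →ₗ[ℝ] F →ₗ[ℝ] ℝ) (x0 y0 : F) (u v : ℕ → F) (m : ℕ) :
    ∃ ε : ℕ → Bool, S x0 y0 + ∑ j ∈ range m, S (u j) (v j) ≤
      S (x0 + ∑ j ∈ range m, sg (ε j) • u j) (y0 + ∑ j ∈ range m, sg (ε j) • v j) := by
  induction m with
  | zero => exact ⟨fun _ => true, by simp⟩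
  | succ m ih =>
    obtain ⟨ε, hε⟩ := ih
    set X := x0 + ∑ j ∈ range m, sg (ε j) • u j with hX
    set Y := y0 + ∑ j ∈ range m, sg (ε j) • v j with hY
    obtain ⟨b, hb⟩ : ∃ b : Bool, 0 ≤ sg b * (S X (v m) + S (u m) Y) := by
      rcases le_total 0 (S X (v m) + S (u m) Y) with h | h
      · exact ⟨true, by simpa [sg] using h⟩
      · exact ⟨false, by simp only [sg]; norm_num; linarith⟩
    refine ⟨fun j => if j = m then b else ε j, ?_⟩
    have h1 : ∀ w : ℕ → F, ∑ j ∈ range (m + 1), sg (if j = m then b else ε j) • w j =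
        ∑ j ∈ range m, sg (ε j) • w j + sg b • w m := by
      intro w
      rw [Finset.sum_range_succ, if_pos rfl]
      congr 1
      apply Finset.sum_congr rfl
      intro j hj
      rw [if_neg (Finset.mem_range.1 hj).ne]
    rw [h1, h1, Finset.sum_range_succ, ← add_assoc x0, ← add_assoc y0, ← hX, ← hY]
    simp only [map_add, LinearMap.add_apply, map_smul, LinearMap.smul_apply, smul_eq_mul]
    have hs : sg b * sg b = 1 := by cases b <;> simp [sg]
    have h2 : sg b * (sg b * S (u m) (v m)) = S (u m) (v m) := by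
      rw [← mul_assoc, hs, one_mul]
    nlinarith

lemma Rep.sum (s : ℕ → Finset (ℕ × ℕ)) (y : ℕ → F) (h : ∀ j, Rep 1 (s j) (y j))
    (hd : ∀ i j, i < j → Disjoint (s i) (s j)) (k M : ℕ) :
    Rep M ((range M).biUnion (fun j => s (k + j))) (∑ j ∈ range M, y (k + j)) := by
  induction M with
  | zero =>
    refine ⟨fun _ => 0, fun _ => 0, fun _ => le_refl _, fun α => Ba_zero α, ?_, ?_⟩ <;> simp
  | succ M ih =>
    rw [Finset.sum_range_succ, Finset.range_add_one, Finset.biUnion_insert, Finset.union_comm]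
    push_cast
    apply ih.add (h (k + M))
    rw [Finset.disjoint_biUnion_left]
    intro i hi
    exact hd _ _ (by have := Finset.mem_range.1 hi; omega)

lemma Rep.sg {w : ℝ} {s : Finset (ℕ × ℕ)} {x : F} (h : Rep w s x) (b : Bool) :
    Rep w s (sg b • x) := by
  cases b
  · have := h.neg
    simpa [WSC.sg] using this
  · simpa [WSC.sg] using h

/-- functionals are small off finite sets -/
theorem off_small (g : F →ₗ[ℝ] ℝ) {C : ℝ} (hg : ∀ x ∈ B, |g x| ≤ C) {ε : ℝ} (hε : 0 < ε) :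
    ∃ J : Finset (ℕ × ℕ), ∀ s x, Disjoint s J → Rep 1 s x → |g x| ≤ ε := by
  by_contra hcon
  push Not at hcon
  obtain ⟨f, hf, hr⟩ := exists_seq_of_forall_finset_exists
    (fun p : Finset (ℕ × ℕ) × F => Rep 1 p.1 p.2 ∧ ε ≤ g p.2)
    (fun p p' => Disjoint p.1 p'.1) (by
      intro T _
      obtain ⟨s, x, hd, hx, hgx⟩ := hcon (T.biUnion (fun p => p.1))
      rw [Finset.disjoint_biUnion_right] at hd
      rcases le_total 0 (g x) with h | h
      · rw [abs_of_nonneg h] at hgx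
        exact ⟨(s, x), ⟨hx, hgx.le⟩, fun p hp => (hd p hp).symm⟩
      · rw [abs_of_nonpos h] at hgx
        exact ⟨(s, -x), ⟨hx.neg, by rw [map_neg]; exact hgx.le⟩, fun p hp => (hd p hp).symm⟩)
  obtain ⟨m, hm⟩ := exists_nat_gt (C / ε)
  have hC : 0 ≤ C := (abs_nonneg _).trans (hg 0 B_zero)
  have hm0 : 0 < m := by
    have : (0:ℝ) < m := lt_of_le_of_lt (by positivity) hm
    exact_mod_cast this
  have hm1 : (1:ℝ) ≤ m := by exact_mod_cast hm0
  have h1 := Rep.sum (fun j => (f j).1) (fun j => (f j).2) (fun j => (hf j).1) hr 0 (m ^ 4)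
  push_cast at h1
  have h2 := Rep.bound hg hm0 h1
  have h3 : (m ^ 4 : ℕ) * ε ≤ g (∑ j ∈ range (m ^ 4), (f (0 + j)).2) := by
    rw [map_sum]
    calc ((m ^ 4 : ℕ) : ℝ) * ε = ∑ j ∈ range (m ^ 4), ε := by simp
      _ ≤ _ := Finset.sum_le_sum fun j _ => (hf _).2
  have h4 := h3.trans ((le_abs_self _).trans h2)
  push_cast at h4
  rw [div_lt_iff₀ hε] at hm
  have h5 : (m:ℝ) * ε ≤ m ^ 3 * ε := by
    have : (m:ℝ) ≤ m ^ 3 := le_self_pow₀ hm1 (by norm_num)
    gcongr
  have h6 : (m:ℝ) ^ 4 * ε = (m ^ 3 * ε) * m := by ring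
  have hm2 : (0:ℝ) < m := by linarith
  have h7 : (m:ℝ) ^ 3 * ε ≤ C := by
    rw [h6] at h4
    exact le_of_mul_le_mul_right h4 hm2
  linarith

/-- forms are small off finite sets -/
theorem off_off (S : F →ₗ[ℝ] F →ₗ[ℝ] ℝ) {C : ℝ} (hS : ∀ x ∈ B, ∀ y ∈ B, |S x y| ≤ C) {ε : ℝ}
    (hε : 0 < ε) :
    ∃ J : Finset (ℕ × ℕ), ∀ s s' x y, Disjoint s J → Disjoint s' J → Rep 1 s x → Rep 1 s' y →
      |S x y| ≤ ε := by
  by_contra hcon
  push Not at hcon
  obtain ⟨f, hf, hr⟩ := exists_seq_of_forall_finset_exists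
    (fun p : (Finset (ℕ × ℕ) × F) × (Finset (ℕ × ℕ) × F) =>
      Rep 1 p.1.1 p.1.2 ∧ Rep 1 p.2.1 p.2.2 ∧ ε ≤ S p.1.2 p.2.2)
    (fun p p' => Disjoint p.1.1 p'.1.1 ∧ Disjoint p.2.1 p'.2.1) (by
      intro T _
      obtain ⟨s, s', x, y, hd, hd', hx, hy, hgx⟩ :=
        hcon (T.biUnion (fun p => p.1.1 ∪ p.2.1))
      rw [Finset.disjoint_biUnion_right] at hd hd'
      have hh : ∀ p ∈ T, Disjoint p.1.1 s ∧ Disjoint p.2.1 s' := by
        intro p hp
        refine ⟨?_, ?_⟩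
        · exact (Finset.disjoint_of_subset_right Finset.subset_union_left (hd p hp)).symm
        · exact (Finset.disjoint_of_subset_right Finset.subset_union_right (hd' p hp)).symm
      rcases le_total 0 (S x y) with h | h
      · rw [abs_of_nonneg h] at hgx
        exact ⟨((s, x), (s', y)), ⟨hx, hy, hgx.le⟩, hh⟩
      · rw [abs_of_nonpos h] at hgx
        exact ⟨((s, x), (s', -y)), ⟨hx, hy.neg, by rw [map_neg]; exact hgx.le⟩, hh⟩)
  obtain ⟨m, hm⟩ := exists_nat_gt (C / ε)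
  have hC : 0 ≤ C := (abs_nonneg _).trans (hS 0 B_zero 0 B_zero)
  have hm0 : 0 < m := by
    have : (0:ℝ) < m := lt_of_le_of_lt (by positivity) hm
    exact_mod_cast this
  have hm1 : (1:ℝ) ≤ m := by exact_mod_cast hm0
  obtain ⟨δ, hδ⟩ := signs S 0 0 (fun j => (f j).1.2) (fun j => (f j).2.2) (m ^ 4)
  have h1 := Rep.sum (fun j => (f j).1.1) (fun j => sg (δ j) • (f j).1.2)
    (fun j => ((hf j).1).sg _) (fun i j h => (hr i j h).1) 0 (m ^ 4)
  have h1' := Rep.sum (fun j => (f j).2.1) (fun j => sg (δ j) • (f j).2.2)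
    (fun j => ((hf j).2.1).sg _) (fun i j h => (hr i j h).2) 0 (m ^ 4)
  push_cast at h1 h1'
  have h2 := Rep.bound2 hS hm0 hm0 h1 h1'
  simp only [zero_add] at h2 hδ
  have h3 : (m ^ 4 : ℕ) * ε ≤ S 0 0 + ∑ j ∈ range (m ^ 4), S (f j).1.2 (f j).2.2 := by
    rw [map_zero, zero_add]
    calc ((m ^ 4 : ℕ) : ℝ) * ε = ∑ j ∈ range (m ^ 4), ε := by simp
      _ ≤ _ := Finset.sum_le_sum fun j _ => (hf _).2.2
  have h4 := (h3.trans hδ).trans ((le_abs_self _).trans h2)
  push_cast at h4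
  rw [div_lt_iff₀ hε] at hm
  have hm2 : (0:ℝ) < m := by linarith
  have h5 : (m:ℝ) * ε ≤ m ^ 2 * ε := by
    have : (m:ℝ) ≤ m ^ 2 := le_self_pow₀ hm1 (by norm_num)
    gcongr
  have h6 : (m:ℝ) ^ 4 * ε = (m ^ 2 * ε) * (m * m) := by ring
  have h7 : (m:ℝ) ^ 2 * ε ≤ C := by
    rw [h6, mul_assoc C] at h4
    exact le_of_mul_le_mul_right h4 (by positivity)
  linarith

/-! ### blocks of trees -/

/-- increasing sequences of slots -/
structure Slots (n : ℕ) (a : ℕ → Bool → Tr) : Prop where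
  adm : ∀ j c, (a j c).Adm n
  inc : ∀ i j, i < j → ∀ c c', (a i c).ind < (a j c').ind

lemma Slots.le_ind {n : ℕ} {a : ℕ → Bool → Tr} (h : Slots n a) (j : ℕ) (c : Bool) :
    j ≤ (a j c).ind := by
  induction j with
  | zero => exact Nat.zero_le _
  | succ j ih => have := h.inc j (j + 1) (Nat.lt_succ_self j) c c; omega

/-- block tree -/
def blk (a : ℕ → Bool → Tr) (q : ℕ) (ε : ℕ → Bool) : Tr :=
  Tr.node q (fun j => ε j) (fun j c => a (q + 1 + j) c)

lemma blk_adm {n : ℕ} {a : ℕ → Bool → Tr} (h : Slots n a) (q : ℕ) (ε : ℕ → Bool) :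
    (blk a q ε).Adm (n + 1) := by
  refine ⟨fun j c => h.adm _ _, fun j c _ => ?_, fun j j' c c' hk => ?_⟩
  · have := h.le_ind (q + 1 + j) c
    unfold Tr.ind at this
    show q < (a (q + 1 + j) c).key.2
    omega
  · by_contra hne
    rcases lt_or_gt_of_ne (fun h' => hne (Fin.ext h') : (j : ℕ) ≠ j') with hlt | hlt
    · have := h.inc (q + 1 + j) (q + 1 + j') (by omega) c c'
      unfold Tr.ind at this
      rw [hk] at this
      exact lt_irrefl _ this
    · have := h.inc (q + 1 + j') (q + 1 + j) (by omega) c' c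
      unfold Tr.ind at this
      rw [hk] at this
      exact lt_irrefl _ this

lemma blk_val (a : ℕ → Bool → Tr) (q : ℕ) (ε : ℕ → Bool) :
    (blk a q ε).val = ∑ j ∈ range (M q), sg (ε j) •
      (co q • ((a (q + 1 + j) false).val + (a (q + 1 + j) true).val)) := by
  rw [blk, Tr.val, Finset.smul_sum,
    ← Fin.sum_univ_eq_sum_range (fun j => sg (ε j) •
      (co q • ((a (q + 1 + j) false).val + (a (q + 1 + j) true).val)))]
  apply Finset.sum_congr rfl
  intro j _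
  rw [smul_comm]

lemma blk_spec {n i : ℕ} (hi : n + 1 ≤ i) {a : ℕ → Bool → Tr} (h : Slots n a) {q : ℕ}
    (ε : ℕ → Bool) {τ : List Tr} (hτ : Spec i τ) (hq : i < q) (hc : (Nat.unpair q).1 = code τ) :
    Spec i (blk a q ε :: τ) :=
  ⟨hτ, (blk_adm h q ε).mono hi, rfl, hq, hc⟩

lemma blk_B {n i : ℕ} (hi : n + 1 ≤ i) {a : ℕ → Bool → Tr} (h : Slots n a) {q : ℕ}
    (ε : ℕ → Bool) (hq : i < q) (hc : (Nat.unpair q).1 = code []) :
    (nu i : ℝ)⁻¹ • (blk a q ε).val ∈ B := by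
  apply gam_sub_B (i := i + 1)
  refine ⟨[blk a q ε], blk_spec hi h ε trivial hq hc, Nat.succ_le_of_lt (len_pos i), ?_⟩
  simp

lemma mu_sq_co (q : ℕ) : (mu q : ℝ) ^ 2 * co q = 1 := by
  unfold co
  have : (0:ℝ) < mu q := by exact_mod_cast mu_pos q
  field_simp

/-- extraction of slots -/
lemma extract {α : Type} (n : ℕ) (P : α → Prop) (t : α → Bool → Tr)
    (hP : ∀ x, P x → ∀ c, (t x c).Adm n) (r : α → α → Prop)
    (h : ∀ (T : Finset α) (m : ℕ), ∃ x, P x ∧ (∀ c, m ≤ (t x c).ind) ∧ ∀ y ∈ T, r y x) :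
    ∃ f : ℕ → α, (∀ k, P (f k)) ∧ Slots n (fun k => t (f k)) ∧
      ∀ i j, i < j → r (f i) (f j) := by
  obtain ⟨f, hf, hr⟩ := exists_seq_of_forall_finset_exists P
    (fun x y => (∀ c c', (t x c).ind < (t y c').ind) ∧ r x y) (by
      intro T _
      obtain ⟨x, hx, hm, hr⟩ := h T (T.sup (fun y => max (t y false).ind (t y true).ind) + 1)
      refine ⟨x, hx, fun y hy => ⟨?_, hr y hy⟩⟩
      intro c c'
      have h1 := Finset.le_sup (f := fun y => max (t y false).ind (t y true).ind) hy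
      have h2 := hm c'
      have h3 : (t y c).ind ≤ max (t y false).ind (t y true).ind := by
        cases c
        · exact le_max_left _ _
        · exact le_max_right _ _
      omega)
  exact ⟨f, hf, ⟨fun j c => hP _ (hf j) c, fun i j hij => (hr i j hij).1⟩,
    fun i j hij => (hr i j hij).2⟩

/-- functionals are small on trees of large weight -/
theorem tree_small (g : F →ₗ[ℝ] ℝ) {C : ℝ} (hg : ∀ x ∈ B, |g x| ≤ C) (n : ℕ) {ε : ℝ}
    (hε : 0 < ε) : ∃ m : ℕ, ∀ a : Tr, a.Adm n → m ≤ a.ind → |g a.val| ≤ ε := by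
  by_contra hcon
  push Not at hcon
  obtain ⟨f, hf, hsl, -⟩ := extract (α := Tr) n (fun a => a.Adm n ∧ ε ≤ |g a.val|)
    (fun a _ => a) (fun x hx _ => hx.1) (fun _ _ => True) (by
      intro T m
      obtain ⟨a, ha, hm, hga⟩ := hcon m
      exact ⟨a, ⟨ha, hga.le⟩, fun _ => hm, fun _ _ => trivial⟩)
  have hC : 0 ≤ C := (abs_nonneg _).trans (hg 0 B_zero)
  obtain ⟨m, hm⟩ := exists_nat_gt (C * nu (n + 1) / ε)
  set q := Nat.pair (code []) (m + n + 2) with hq
  have hqm : m + n + 2 ≤ q := Nat.right_le_pair _ _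
  have hc : (Nat.unpair q).1 = code [] := by rw [hq, Nat.unpair_pair]
  set δ : ℕ → Bool := fun j => decide (0 ≤ g (f (q + 1 + j)).val) with hδ
  have h1 := hg _ (blk_B (le_refl (n + 1)) hsl δ (by omega : n + 1 < q) hc)
  have hnu : (0:ℝ) < nu (n + 1) := by exact_mod_cast nu_pos _
  rw [map_smul, smul_eq_mul, abs_mul, abs_of_pos (show (0:ℝ) < (nu (n+1) : ℝ)⁻¹ by positivity),
    inv_mul_le_iff₀ hnu] at h1
  have h2 : (mu q : ℝ) ^ 2 * (2 * ε) ≤ g (blk (fun k _ => f k) q δ).val := by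
    rw [blk_val, map_sum]
    have h3 : ∀ j ∈ range (M q), co q * (2 * ε) ≤ g (sg (δ j) •
        (co q • ((f (q + 1 + j)).val + (f (q + 1 + j)).val))) := by
      intro j _
      rw [map_smul, map_smul, map_add, smul_eq_mul, smul_eq_mul]
      have h4 : sg (δ j) * g (f (q + 1 + j)).val = |g (f (q + 1 + j)).val| := by
        simp only [hδ, sg]
        by_cases h : 0 ≤ g (f (q + 1 + j)).val
        · simp [h, abs_of_nonneg h]
        · push Not at h
          simp [not_le.2 h, abs_of_neg h]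
      have h5 := (hf (q + 1 + j)).2
      have h6 := co_pos q
      calc co q * (2 * ε) ≤ co q * (2 * |g (f (q + 1 + j)).val|) := by gcongr
        _ = _ := by rw [← h4]; ring
    calc (mu q : ℝ) ^ 2 * (2 * ε) = ∑ j ∈ range (M q), co q * (2 * ε) := by
          rw [Finset.sum_const, Finset.card_range, nsmul_eq_mul, ← mul_assoc (M q : ℝ), M_mul_co]
      _ ≤ _ := Finset.sum_le_sum h3
  have h3 := h2.trans ((le_abs_self _).trans h1)
  have h4 : (m:ℝ) ≤ mu q := by
    have : m ≤ mu q := le_trans (by omega) (le_mu q)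
    exact_mod_cast this
  have h5 : (1:ℝ) ≤ mu q := by exact_mod_cast mu_pos q
  rw [div_lt_iff₀ hε] at hm
  have h6 : (mu q : ℝ) ≤ (mu q : ℝ) ^ 2 := le_self_pow₀ h5 (by norm_num)
  have h7 : (m:ℝ) * ε ≤ (mu q : ℝ) ^ 2 * ε := by
    have := h4.trans h6
    gcongr
  nlinarith

/-- trees of large weight against vectors off a finite set -/
theorem tree_off (S : F →ₗ[ℝ] F →ₗ[ℝ] ℝ) {C : ℝ} (hS : ∀ x ∈ B, ∀ y ∈ B, |S x y| ≤ C) (n : ℕ)
    {ε : ℝ} (hε : 0 < ε) :
    ∃ (J : Finset (ℕ × ℕ)) (m : ℕ), ∀ a : Tr, a.Adm n → m ≤ a.ind → ∀ s y, Disjoint s J →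
      Rep 1 s y → |S a.val y| ≤ ε := by
  by_contra hcon
  push Not at hcon
  obtain ⟨f, hf, hsl, hr⟩ := extract (α := Tr × (Finset (ℕ × ℕ) × F)) n
    (fun p => p.1.Adm n ∧ Rep 1 p.2.1 p.2.2 ∧ ε ≤ S p.1.val p.2.2)
    (fun p _ => p.1) (fun x hx _ => hx.1) (fun p p' => Disjoint p.2.1 p'.2.1) (by
      intro T m
      obtain ⟨a, ha, hm, s, y, hd, hy, hga⟩ := hcon (T.biUnion (fun p => p.2.1)) m
      rw [Finset.disjoint_biUnion_right] at hd
      rcases le_total 0 (S a.val y) with h | h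
      · rw [abs_of_nonneg h] at hga
        exact ⟨(a, (s, y)), ⟨ha, hy, hga.le⟩, fun _ => hm, fun p hp => (hd p hp).symm⟩
      · rw [abs_of_nonpos h] at hga
        exact ⟨(a, (s, -y)), ⟨ha, hy.neg, by rw [map_neg]; exact hga.le⟩, fun _ => hm,
          fun p hp => (hd p hp).symm⟩)
  have hC : 0 ≤ C := (abs_nonneg _).trans (hS 0 B_zero 0 B_zero)
  obtain ⟨m, hm⟩ := exists_nat_gt (C * nu (n + 1) / ε)
  set q := Nat.pair (code []) (m + n + 2) with hq
  have hqm : m + n + 2 ≤ q := Nat.right_le_pair _ _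
  have hc : (Nat.unpair q).1 = code [] := by rw [hq, Nat.unpair_pair]
  obtain ⟨δ, hδ⟩ := signs S 0 0 (fun j => (f (q + 1 + j)).1.val) (fun j => (f (q + 1 + j)).2.2) (M q)
  simp only [zero_add, map_zero] at hδ
  have hnu : (0:ℝ) < nu (n + 1) := by exact_mod_cast nu_pos _
  have hB := blk_B (le_refl (n + 1)) hsl δ (by omega : n + 1 < q) hc
  have hR := Rep.sum (fun j => (f (q + 1 + j)).2.1) (fun j => sg (δ j) • (f (q + 1 + j)).2.2)
    (fun j => ((hf _).2.1).sg _) (fun i j h => hr _ _ (by omega)) 0 (M q)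
  simp only [zero_add] at hR
  have hM : ((M q : ℕ) : ℝ) = (mu q : ℝ) ^ 4 := by unfold M; push_cast; rfl
  rw [hM] at hR
  have h1 := Rep.bound (g := S ((nu (n + 1) : ℝ)⁻¹ • (blk (fun k _ => (f k).1) q δ).val))
    (fun y hy => hS _ hB y hy) (mu_pos q) hR
  rw [map_smul, LinearMap.smul_apply, smul_eq_mul, abs_mul,
    abs_of_pos (show (0:ℝ) < (nu (n+1) : ℝ)⁻¹ by positivity), inv_mul_le_iff₀ hnu] at h1
  -- the block is a multiple of the signed sum
  have h2 : (blk (fun k _ => (f k).1) q δ).val =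
      (2 * co q) • ∑ j ∈ range (M q), sg (δ j) • (f (q + 1 + j)).1.val := by
    rw [blk_val, Finset.smul_sum]
    apply Finset.sum_congr rfl
    intro j _
    rw [← two_smul ℝ, smul_smul, smul_smul, smul_smul]
    congr 1
    ring
  rw [h2, map_smul, LinearMap.smul_apply, smul_eq_mul, abs_mul,
    abs_of_pos (show (0:ℝ) < 2 * co q by have := co_pos q; positivity)] at h1
  have h3 : (M q : ℝ) * ε ≤ ∑ j ∈ range (M q), S (f (q + 1 + j)).1.val (f (q + 1 + j)).2.2 := by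
    calc (M q : ℝ) * ε = ∑ j ∈ range (M q), ε := by simp
      _ ≤ _ := Finset.sum_le_sum fun j _ => (hf _).2.2
  have h4 := (h3.trans hδ).trans (le_abs_self _)
  have hco := co_pos q
  have h5 : 2 * co q * ((M q : ℝ) * ε) ≤ nu (n + 1) * (C * mu q) :=
    le_trans (mul_le_mul_of_nonneg_left h4 (by positivity)) h1
  have h6 : 2 * co q * ((M q : ℝ) * ε) = 2 * (mu q : ℝ) ^ 2 * ε := by
    rw [← M_mul_co q]; ring
  rw [h6] at h5
  have hmu : (1:ℝ) ≤ mu q := by exact_mod_cast mu_pos q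
  have h7 : 2 * (mu q : ℝ) * ε ≤ nu (n + 1) * C := by
    have : (2 * (mu q : ℝ) * ε) * mu q ≤ (nu (n + 1) * C) * mu q := by nlinarith
    exact le_of_mul_le_mul_right this (by linarith)
  have h8 : (m:ℝ) ≤ mu q := by
    have : m ≤ mu q := le_trans (by omega) (le_mu q)
    exact_mod_cast this
  rw [div_lt_iff₀ hε] at hm
  nlinarith

/-- the killing lemma, one sign -/
theorem kill_aux (S : F →ₗ[ℝ] F →ₗ[ℝ] ℝ) {C : ℝ} (hS : ∀ x ∈ B, ∀ y ∈ B, |S x y| ≤ C) (n : ℕ)
    {δ : ℝ} (hδ : 0 < δ)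
    (h : ∀ m : ℕ, ∃ a b : Tr, a.Adm n ∧ b.Adm n ∧ m ≤ a.ind ∧ m ≤ b.ind ∧
      δ ≤ S (a.val + b.val) (a.val + b.val)) : False := by
  obtain ⟨f, hf, hsl, -⟩ := extract (α := Tr × Tr) n
    (fun p => p.1.Adm n ∧ p.2.Adm n ∧ δ ≤ S (p.1.val + p.2.val) (p.1.val + p.2.val))
    (fun p c => if c then p.2 else p.1)
    (by intro p hp c; cases c
        · exact hp.1
        · exact hp.2.1)
    (fun _ _ => True) (by
      intro T m
      obtain ⟨a, b, ha, hb, hm, hm', hab⟩ := h m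
      exact ⟨(a, b), ⟨ha, hb, hab⟩, by intro c; cases c <;> simpa, fun _ _ => trivial⟩)
  set sl : ℕ → Bool → Tr := fun k c => if c then (f k).2 else (f k).1 with hsl'
  have hC : 0 ≤ C := (abs_nonneg _).trans (hS 0 B_zero 0 B_zero)
  -- special lists of every length
  have key : ∀ (i : ℕ), n + 1 ≤ i → ∀ s : ℕ, ∃ τ : List Tr, Spec i τ ∧ τ.length = s ∧
      s * δ ≤ S (vec τ) (vec τ) := by
    intro i hi s
    induction s with
    | zero => exact ⟨[], trivial, rfl, by simp⟩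
    | succ s ih =>
      obtain ⟨τ, hτ, hl, hτS⟩ := ih
      set q := Nat.pair (code τ) (i + 1) with hq
      have hqi : i < q := lt_of_lt_of_le (Nat.lt_succ_self i) (Nat.right_le_pair _ _)
      have hc : (Nat.unpair q).1 = code τ := by rw [hq, Nat.unpair_pair]
      set u : ℕ → F := fun j => co q • ((f (q + 1 + j)).1.val + (f (q + 1 + j)).2.val) with hu
      obtain ⟨ε, hε⟩ := signs S (vec τ) (vec τ) u u (M q)
      refine ⟨blk sl q ε :: τ, blk_spec hi hsl ε hτ hqi hc, by simp [hl], ?_⟩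
      have h1 : vec (blk sl q ε :: τ) = vec τ + ∑ j ∈ range (M q), sg (ε j) • u j := by
        rw [vec_cons, blk_val, add_comm]
        rfl
      rw [h1]
      refine le_trans ?_ hε
      have h2 : δ ≤ ∑ j ∈ range (M q), S (u j) (u j) := by
        have h3 : ∀ j ∈ range (M q), co q * (co q * δ) ≤ S (u j) (u j) := by
          intro j _
          rw [hu]
          simp only
          rw [map_smul, map_smul S, LinearMap.smul_apply, smul_eq_mul, smul_eq_mul]
          have := (hf (q + 1 + j)).2.2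
          have := co_pos q
          gcongr
        have h4 : δ = ∑ j ∈ range (M q), co q * (co q * δ) := by
          rw [Finset.sum_const, Finset.card_range, nsmul_eq_mul, ← mul_assoc, M_mul_co,
            ← mul_assoc, mu_sq_co, one_mul]
        rw [h4]
        exact Finset.sum_le_sum h3
      push_cast
      linarith
  obtain ⟨m, hm⟩ := exists_nat_gt (C / δ)
  set i := max (n + 1) m with hi
  obtain ⟨τ, hτ, hl, hτS⟩ := key i (le_max_left _ _) (len i)
  have hB : (nu i : ℝ)⁻¹ • vec τ ∈ B := by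
    apply gam_sub_B (i := i + 1)
    exact ⟨τ, hτ, hl.le, rfl⟩
  have h1 := (le_abs_self _).trans (hS _ hB _ hB)
  have hnu : (0:ℝ) < nu i := by exact_mod_cast nu_pos _
  rw [map_smul, map_smul S, LinearMap.smul_apply, smul_eq_mul, smul_eq_mul] at h1
  have h2 : (4:ℝ) ^ i * δ ≤ C := by
    refine le_trans ?_ h1
    calc (4:ℝ) ^ i * δ = (nu i : ℝ)⁻¹ * ((nu i : ℝ)⁻¹ * (len i * δ)) := by
          unfold len; push_cast; field_simp
      _ ≤ _ := by gcongr
  have h3 : (m:ℝ) ≤ 4 ^ i := by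
    have : m ≤ 4 ^ i := (le_max_right (n+1) m).trans (Nat.lt_pow_self (by norm_num)).le
    exact_mod_cast this
  rw [div_lt_iff₀ hδ] at hm
  nlinarith

/-- the killing lemma -/
theorem kill (S : F →ₗ[ℝ] F →ₗ[ℝ] ℝ) (hsym : ∀ x y, S x y = S y x) {C : ℝ}
    (hS : ∀ x ∈ B, ∀ y ∈ B, |S x y| ≤ C) (n : ℕ) {δ : ℝ} (hδ : 0 < δ) :
    ∃ m : ℕ, ∀ a b : Tr, a.Adm n → b.Adm n → m ≤ a.ind → m ≤ b.ind → |S a.val b.val| ≤ δ := by
  by_contra hcon
  push Not at hcon
  have h1 : ∀ m : ℕ, ∃ a b : Tr, a.Adm n ∧ b.Adm n ∧ m ≤ a.ind ∧ m ≤ b.ind ∧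
      δ ≤ |S (a.val + b.val) (a.val + b.val)| := by
    intro m
    obtain ⟨a, b, ha, hb, hma, hmb, hab⟩ := hcon m
    by_contra hc
    push Not at hc
    have e1 := hc a b ha hb hma hmb
    have e2 := hc a a ha ha hma hma
    have e3 := hc b b hb hb hmb hmb
    simp only [map_add, LinearMap.add_apply] at e1 e2 e3
    rw [hsym b.val a.val] at e1
    rw [abs_lt] at e1 e2 e3
    rcases lt_abs.1 hab with h | h <;> linarith
  by_cases hpos : ∀ m : ℕ, ∃ a b : Tr, a.Adm n ∧ b.Adm n ∧ m ≤ a.ind ∧ m ≤ b.ind ∧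
      δ ≤ S (a.val + b.val) (a.val + b.val)
  · exact kill_aux S hS n hδ hpos
  · push Not at hpos
    obtain ⟨m₀, hm₀⟩ := hpos
    apply kill_aux (-S) (C := C) (fun x hx y hy => by
      rw [LinearMap.neg_apply, LinearMap.neg_apply, abs_neg]; exact hS x hx y hy) n hδ
    intro m
    obtain ⟨a, b, ha, hb, hma, hmb, hab⟩ := h1 (max m m₀)
    refine ⟨a, b, ha, hb, (le_max_left _ _).trans hma, (le_max_left _ _).trans hmb, ?_⟩
    have h2 := hm₀ a b ha hb ((le_max_right _ _).trans hma) ((le_max_right _ _).trans hmb)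
    rw [LinearMap.neg_apply, LinearMap.neg_apply]
    rcases le_abs.1 hab with h | h
    · linarith
    · exact h

end Pool.Agent.WSC
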