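import Pool.Agent.Lib_helper47.WSC.Tree

/-!
# Trees and the pairing estimate (counterexample for MP_4285bb_an)
-/

set_option autoImplicit false
open Finset

namespace Pool.Agent.WSC

/-- finitely supported vectors -/
abbrev F : Type := (ℕ × Bool) →₀ ℝ

/-- the unit vectors -/
noncomputable def e (m : ℕ) (c : Bool) : F := Finsupp.single (m, c) 1

/-- formal trees -/
inductive Tr : Type
  | leaf (m : ℕ) (c : Bool) : Tr
  | node (q : ℕ) (ε : Fin (M q) → Bool) (f : Fin (M q) → Bool → Tr) : Tr

namespace Tr

/-- kind and weight of a tree -/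
def key : Tr → Bool × ℕ
  | leaf m _ => (false, m)
  | node q _ _ => (true, q)

/-- weight of a tree -/
def ind (t : Tr) : ℕ := t.key.2

end Tr

/-- sign of a boolean -/
def sg (b : Bool) : ℝ := if b then 1 else -1

lemma sg_abs (b : Bool) : |sg b| = 1 := by cases b <;> simp [sg]

/-- the coefficient of a node -/
noncomputable def co (q : ℕ) : ℝ := ((mu q : ℝ) ^ 2)⁻¹

lemma co_pos (q : ℕ) : 0 < co q := by
  unfold co
  have : (0:ℝ) < mu q := by exact_mod_cast mu_pos q
  positivity

lemma co_le_one (q : ℕ) : co q ≤ 1 := by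
  unfold co
  have : (1:ℝ) ≤ mu q := by exact_mod_cast mu_pos q
  exact inv_le_one_of_one_le₀ (one_le_pow₀ this)

lemma co_anti : Antitone co := by
  intro a b h
  unfold co
  have h1 : (0:ℝ) < mu a := by exact_mod_cast mu_pos a
  have h2 : (mu a : ℝ) ≤ mu b := by exact_mod_cast mu_mono h
  gcongr

/-- the vector of a tree -/
noncomputable def Tr.val : Tr → F
  | leaf m c => e m c
  | node q ε f => co q • ∑ j, sg (ε j) • ((f j false).val + (f j true).val)

/-- admissible trees of depth at most `n` -/
def Tr.Adm : Tr → ℕ → Prop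
  | leaf _ _, _ => True
  | node _ _ _, 0 => False
  | node q _ f, n + 1 => (∀ j c, (f j c).Adm n) ∧
      (∀ j c, (f j c).key.1 = true → q < (f j c).key.2) ∧
      (∀ j j' c c', (f j c).key = (f j' c').key → j = j')

lemma Tr.Adm.mono {t : Tr} : ∀ {n n' : ℕ}, t.Adm n → n ≤ n' → t.Adm n' := by
  induction t with
  | leaf m c => intro n n' _ _; trivial
  | node q ε f ih =>
    intro n n' h hn
    cases n with
    | zero => exact h.elim
    | succ n =>
      cases n' with
      | zero => omega
      | succ n' =>
        exact ⟨fun j c => ih j c (h.1 j c) (by omega), h.2.1, h.2.2⟩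

/-- smallness of a tree -/
noncomputable def Tr.ir : Tr → ℝ
  | leaf _ _ => 0
  | node q _ _ => co q

lemma Tr.ir_nonneg (t : Tr) : 0 ≤ t.ir := by
  cases t with
  | leaf m c => exact le_refl _
  | node q ε f => exact (co_pos q).le

lemma M_mul_co (q : ℕ) : (M q : ℝ) * co q = (mu q : ℝ) ^ 2 := by
  unfold M co
  have : (0:ℝ) < mu q := by exact_mod_cast mu_pos q
  push_cast
  field_simp

lemma M_mul_co_succ (q : ℕ) : 2 * (M q : ℝ) * co (q + 1) ≤ 1 := by
  unfold M co
  have h1 : (0:ℝ) < mu q := by exact_mod_cast mu_pos q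
  have h3 : (0:ℝ) < mu (q+1) := by exact_mod_cast mu_pos (q+1)
  have h2 : 2 * (mu q : ℝ) ^ 2 ≤ mu (q+1) := by exact_mod_cast mu_succ q
  push_cast
  rw [mul_inv_le_iff₀ (by positivity), one_mul]
  calc 2 * (mu q : ℝ) ^ 4 ≤ (2 * (mu q : ℝ) ^ 2) ^ 2 := by nlinarith [pow_pos h1 4]
    _ ≤ (mu (q+1) : ℝ) ^ 2 := by gcongr

/-- a bilinear form controlled by positions -/
def Ctrl (β : F →ₗ[ℝ] F →ₗ[ℝ] ℝ) : Prop :=
  ∀ m c m' c', |β (e m c) (e m' c')| ≤ if m = m' then 1 else 0

lemma Ctrl.flip {β : F →ₗ[ℝ] F →ₗ[ℝ] ℝ} (h : Ctrl β) : Ctrl β.flip := by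
  intro m c m' c'
  have := h m' c' m c
  rw [LinearMap.flip_apply]
  refine this.trans ?_
  by_cases hm : m = m'
  · simp [hm]
  · simp [hm, Ne.symm hm]

lemma abs_val_node (g : F →ₗ[ℝ] ℝ) (q : ℕ) (ε : Fin (M q) → Bool) (f : Fin (M q) → Bool → Tr) :
    |g (Tr.node q ε f).val| ≤ co q * ∑ j, ∑ c, |g (f j c).val| := by
  rw [Tr.val, map_smul, smul_eq_mul, abs_mul, abs_of_pos (co_pos q)]
  apply mul_le_mul_of_nonneg_left _ (co_pos q).le
  rw [map_sum]
  refine (Finset.abs_sum_le_sum_abs _ _).trans ?_
  apply Finset.sum_le_sum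
  intro j _
  rw [map_smul, smul_eq_mul, abs_mul, sg_abs, one_mul, map_add, Fintype.sum_bool, add_comm]
  exact abs_add_le _ _

/-- number of children with a given key -/
lemma sum_key (q : ℕ) (f : Fin (M q) → Bool → Tr)
    (hf : ∀ j j' c c', (f j c).key = (f j' c').key → j = j') (κ : Bool × ℕ) :
    ∑ j, ∑ c, (if κ = (f j c).key then (1:ℝ) else 0) ≤ 2 := by
  by_cases h : ∃ j₀ c₀, κ = (f j₀ c₀).key
  · obtain ⟨j₀, c₀, h0⟩ := h
    rw [Finset.sum_eq_single j₀]
    · rw [Fintype.sum_bool]
      have h1 : (if κ = (f j₀ true).key then (1:ℝ) else 0) ≤ 1 := by split_ifs <;> norm_num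
      have h2 : (if κ = (f j₀ false).key then (1:ℝ) else 0) ≤ 1 := by split_ifs <;> norm_num
      linarith
    · intro j _ hj
      apply Finset.sum_eq_zero
      intro c _
      rw [if_neg]
      intro h
      exact hj (hf j j₀ c c₀ (h.symm.trans h0))
    · intro h; exact absurd (Finset.mem_univ _) h
  · push Not at h
    rw [Finset.sum_eq_zero]
    · norm_num
    · intro j _
      apply Finset.sum_eq_zero
      intro c _
      rw [if_neg (h j c)]

lemma child_ir {q : ℕ} {ε : Fin (M q) → Bool} {f : Fin (M q) → Bool → Tr} {k : ℕ}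
    (ht : (Tr.node q ε f).Adm (k + 1)) (j : Fin (M q)) (c : Bool) :
    (f j c).ir ≤ co (q + 1) := by
  have h := ht.2.1 j c
  generalize f j c = t at *
  cases t with
  | leaf m c => exact (co_pos _).le
  | node q' ε' f' => exact co_anti (h rfl)

lemma core (β : F →ₗ[ℝ] F →ₗ[ℝ] ℝ) (n k : ℕ) (u : Tr) (q : ℕ)
    (ε : Fin (M q) → Bool) (f : Fin (M q) → Bool → Tr) (ht : (Tr.node q ε f).Adm (k + 1))
    (hur : u.ir ≤ co (q + 1))
    (IH : ∀ j c, |β u.val (f j c).val| ≤
      3 ^ (n + k) * (if u.key = (f j c).key then 1 else max u.ir (f j c).ir)) :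
    |β u.val (Tr.node q ε f).val| ≤ 3 ^ (n + k + 1) * co q := by
  refine (abs_val_node (β u.val) q ε f).trans ?_
  have h1 : ∑ j, ∑ c, |β u.val (f j c).val| ≤ ∑ j : Fin (M q), ∑ c : Bool,
      3 ^ (n + k) * ((if u.key = (f j c).key then (1:ℝ) else 0) + co (q + 1)) := by
    apply Finset.sum_le_sum
    intro j _
    apply Finset.sum_le_sum
    intro c _
    refine (IH j c).trans ?_
    apply mul_le_mul_of_nonneg_left _ (by positivity)
    have h0 := (co_pos (q + 1)).le
    split_ifs with h
    · linarith
    · have := child_ir ht j c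
      rw [zero_add]
      exact max_le hur this
  have h2 : ∑ j : Fin (M q), ∑ c : Bool,
      3 ^ (n + k) * ((if u.key = (f j c).key then (1:ℝ) else 0) + co (q + 1)) ≤
      3 ^ (n + k) * 3 := by
    simp_rw [← Finset.mul_sum]
    apply mul_le_mul_of_nonneg_left _ (by positivity)
    simp_rw [Finset.sum_add_distrib]
    have h3 := sum_key q f ht.2.2 u.key
    have h4 := M_mul_co_succ q
    have h5 : ∑ j : Fin (M q), ∑ c : Bool, co (q + 1) = 2 * (M q : ℝ) * co (q + 1) := by
      simp only [Finset.sum_const, Finset.card_univ, Fintype.card_bool, Fintype.card_fin,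
        nsmul_eq_mul]
      push_cast; ring
    rw [h5]
    linarith
  calc co q * ∑ j, ∑ c, |β u.val (f j c).val| ≤ co q * (3 ^ (n + k) * 3) :=
        mul_le_mul_of_nonneg_left (h1.trans h2) (co_pos q).le
    _ = 3 ^ (n + k + 1) * co q := by ring

/-- the pairing estimate -/
theorem pairing_aux (s : ℕ) : ∀ (β : F →ₗ[ℝ] F →ₗ[ℝ] ℝ), Ctrl β → ∀ (n n' : ℕ), n + n' = s →
    ∀ (t t' : Tr), t.Adm n → t'.Adm n' →
    |β t.val t'.val| ≤ 3 ^ (n + n') * (if t.key = t'.key then 1 else max t.ir t'.ir) := by
  induction s using Nat.strong_induction_on with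
  | _ s ih =>
    intro β hβ n n' hs t t' ht ht'
    -- expanding the second argument
    have hexp : ∀ (β : F →ₗ[ℝ] F →ₗ[ℝ] ℝ), Ctrl β → ∀ (n n' : ℕ), n + n' = s →
        ∀ (u : Tr) (q : ℕ) (ε : Fin (M q) → Bool) (f : Fin (M q) → Bool → Tr),
        u.Adm n → (Tr.node q ε f).Adm n' → u.ir ≤ co (q + 1) →
        |β u.val (Tr.node q ε f).val| ≤ 3 ^ (n + n') * co q := by
      intro β hβ n n' hs u q ε f hu ht' hur
      cases n' with
      | zero => exact ht'.elim
      | succ k =>
        have := core β n k u q ε f ht' hur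
          (fun j c => ih (n + k) (by omega) β hβ n k rfl u (f j c) hu (ht'.1 j c))
        exact this
    cases t with
    | leaf m c =>
      cases t' with
      | leaf m' c' =>
        have h := hβ m c m' c'
        have h3 : (1:ℝ) ≤ 3 ^ (n + n') := one_le_pow₀ (by norm_num)
        simp only [Tr.val, Tr.key, Tr.ir]
        refine h.trans ?_
        by_cases hm : m = m'
        · simp [hm, h3]
        · simp [hm]
      | node q ε f =>
        have := hexp β hβ n n' hs (Tr.leaf m c) q ε f ht ht' (co_pos _).le
        rw [if_neg (by simp [Tr.key])]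
        simpa [Tr.ir, max_eq_right (co_pos q).le] using this
    | node q ε f =>
      cases t' with
      | leaf m c =>
        have := hexp β.flip hβ.flip n' n (by omega) (Tr.leaf m c) q ε f ht' ht (co_pos _).le
        rw [LinearMap.flip_apply] at this
        rw [if_neg (by simp [Tr.key])]
        rw [add_comm n n']
        simpa [Tr.ir, max_eq_left (co_pos q).le] using this
      | node q' ε' f' =>
        rcases lt_trichotomy q q' with hq | hq | hq
        · have := hexp β.flip hβ.flip n' n (by omega) (Tr.node q' ε' f') q ε f ht' ht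
            (co_anti hq)
          rw [LinearMap.flip_apply] at this
          rw [if_neg (by simp [Tr.key]; omega), add_comm n n']
          simpa [Tr.ir, max_eq_left (co_anti hq.le)] using this
        · subst hq
          rw [if_pos (show (Tr.node q ε f).key = (Tr.node q ε' f').key from rfl), mul_one]
          cases n with
          | zero => exact ht.elim
          | succ k =>
            cases n' with
            | zero => exact ht'.elim
            | succ k' =>
              have h1 := abs_val_node (β.flip (Tr.node q ε' f').val) q ε f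
              rw [LinearMap.flip_apply] at h1
              refine h1.trans ?_
              have h2 : ∀ j c, |β.flip (Tr.node q ε' f').val (f j c).val| ≤
                  3 ^ (k + k' + 1) * co q := by
                intro j c
                rw [LinearMap.flip_apply]
                exact core β k k' (f j c) q ε' f' ht' (child_ir ht j c)
                  (fun j' c' => ih (k + k') (by omega) β hβ k k' rfl (f j c) (f' j' c')
                    (ht.1 j c) (ht'.1 j' c'))
              calc co q * ∑ j, ∑ c, |β.flip (Tr.node q ε' f').val (f j c).val|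
                  ≤ co q * ∑ j : Fin (M q), ∑ c : Bool, 3 ^ (k + k' + 1) * co q := by
                    apply mul_le_mul_of_nonneg_left _ (co_pos q).le
                    exact Finset.sum_le_sum fun j _ => Finset.sum_le_sum fun c _ => h2 j c
                _ = 2 * 3 ^ (k + k' + 1) * ((M q : ℝ) * co q * co q) := by
                    simp only [Finset.sum_const, Finset.card_univ, Fintype.card_bool,
                      Fintype.card_fin, nsmul_eq_mul]
                    push_cast; ring
                _ = 2 * 3 ^ (k + k' + 1) := by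
                    rw [M_mul_co]
                    have : (0:ℝ) < mu q := by exact_mod_cast mu_pos q
                    unfold co
                    field_simp
                _ ≤ 3 ^ (k + 1 + (k' + 1)) := by
                    rw [show k + 1 + (k' + 1) = (k + k' + 1) + 1 by ring, pow_succ 3 (k + k' + 1)]
                    nlinarith [pow_pos (show (0:ℝ) < 3 by norm_num) (k + k' + 1)]
        · have := hexp β hβ n n' hs (Tr.node q ε f) q' ε' f' ht ht' (co_anti hq)
          rw [if_neg (by simp [Tr.key]; omega)]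
          simpa [Tr.ir, max_eq_right (co_anti hq.le)] using this

/-- the pairing estimate -/
theorem pairing {β : F →ₗ[ℝ] F →ₗ[ℝ] ℝ} (hβ : Ctrl β) {n n' : ℕ}
    {t t' : Tr} (ht : t.Adm n) (ht' : t'.Adm n') :
    |β t.val t'.val| ≤ 3 ^ (n + n') * (if t.key = t'.key then 1 else max t.ir t'.ir) :=
  pairing_aux (n + n') β hβ n n' rfl t t' ht ht'

end Pool.Agent.WSC
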