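import Pool.Agent.Lib_helper47.WSC.Ban

/-!
# Reflexivity (counterexample for MP_4285bb_an)
-/

set_option autoImplicit false
open Finset Filter Topology

namespace Pool.Agent.WSC

/-! ### Goldstine -/

/-- norm of a functional is controlled by the ball -/
lemma norm_le_of_B (φ : XX →L[ℝ] ℝ) {C : ℝ} (hC0 : 0 ≤ C) (hC : ∀ x ∈ B, φ (io x) ≤ C) :
    ‖φ‖ ≤ C := by
  apply φ.opNorm_le_bound hC0
  intro z
  refine dense_io.induction_on (p := fun z => ‖φ z‖ ≤ C * ‖z‖) z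
    (isClosed_le (by fun_prop) (by fun_prop)) ?_
  intro x
  rw [norm_io, Real.norm_eq_abs]
  have h1 : ∀ x ∈ B, |(φ.toLinearMap ∘ₗ io) x| ≤ C := by
    intro x hx
    rw [abs_le]
    refine ⟨?_, hC x hx⟩
    have := hC (-x) (B_neg hx)
    rw [map_neg, map_neg] at this
    show -C ≤ φ (io x)
    linarith
  exact bound_of_B h1 x

/-- finite dimensional approximation -/
lemma goldstine_fin (ξ : StrongDual ℝ (StrongDual ℝ XX)) (hξ : ‖ξ‖ ≤ 1)
    (Φ : Finset (StrongDual ℝ XX)) :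
    (fun φ : Φ => ξ (φ : StrongDual ℝ XX)) ∈
      closure ((fun x : F => fun φ : Φ => (φ : StrongDual ℝ XX) (io x)) '' B) := by
  classical
  by_contra hcon
  have hconv : Convex ℝ ((fun x : F => fun φ : Φ => (φ : StrongDual ℝ XX) (io x)) '' B) := by
    rintro _ ⟨x, hx, rfl⟩ _ ⟨y, hy, rfl⟩ a b ha hb hab
    refine ⟨a • x + b • y, B_convex hx hy ha hb hab, ?_⟩
    funext φ
    simp
  obtain ⟨f, u, hf, hu⟩ := geometric_hahn_banach_closed_point hconv.closure isClosed_closure hcon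
  have hrep : ∀ y : Φ → ℝ, f y = ∑ φ : Φ, y φ * f (Pi.single φ 1) := by
    intro y
    have h1 := f.toLinearMap.pi_apply_eq_sum_univ y
    simp only [smul_eq_mul] at h1
    refine h1.trans ?_
    apply Finset.sum_congr rfl
    intro φ _
    have hs : (fun j : Φ => if φ = j then (1:ℝ) else 0) = Pi.single φ 1 := by
      funext ψ; simp [Pi.single_apply, eq_comm]
    rw [hs]
    rfl
  set ψ : StrongDual ℝ XX := ∑ φ : Φ, f (Pi.single φ 1) • (φ : StrongDual ℝ XX) with hψ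
  have h1 : ∀ x ∈ B, ψ (io x) ≤ u := by
    intro x hx
    have h2 := hf _ (subset_closure ⟨x, hx, rfl⟩)
    rw [hrep] at h2
    refine le_of_eq_of_le ?_ h2.le
    rw [hψ, ContinuousLinearMap.sum_apply]
    apply Finset.sum_congr rfl
    intro φ _
    rw [ContinuousLinearMap.smul_apply, smul_eq_mul, mul_comm]
  have hu0 : 0 ≤ u := by
    have := h1 0 B_zero
    rwa [map_zero, map_zero] at this
  have h2 := norm_le_of_B ψ hu0 h1
  have h3 : ξ ψ ≤ u := by
    refine (le_abs_self _).trans ?_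
    rw [← Real.norm_eq_abs]
    refine (ξ.le_opNorm ψ).trans ?_
    calc ‖ξ‖ * ‖ψ‖ ≤ 1 * u := mul_le_mul hξ h2 (norm_nonneg _) zero_le_one
      _ = u := one_mul u
  rw [hrep] at hu
  have h4 : ξ ψ = ∑ φ : Φ, ξ (φ : StrongDual ℝ XX) * f (Pi.single φ 1) := by
    rw [hψ, map_sum]
    apply Finset.sum_congr rfl
    intro φ _
    rw [map_smul, smul_eq_mul, mul_comm]
  linarith

/-- approximating ultrafilter -/
lemma goldstine (ξ : StrongDual ℝ (StrongDual ℝ XX)) (hξ : ‖ξ‖ ≤ 1) :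
    ∃ 𝒱 : Ultrafilter F, (∀ᶠ x in (𝒱 : Filter F), x ∈ B) ∧
      ∀ φ : StrongDual ℝ XX, Tendsto (fun x => φ (io x)) 𝒱 (𝓝 (ξ φ)) := by
  classical
  set E : Finset (StrongDual ℝ XX) → Filter F := fun Φ =>
    comap (fun x : F => fun φ : Φ => (φ : StrongDual ℝ XX) (io x))
      (𝓝 (fun φ : Φ => ξ (φ : StrongDual ℝ XX))) ⊓ 𝓟 B with hE
  have hne : ∀ Φ, (E Φ).NeBot := by
    intro Φ
    have h1 := goldstine_fin ξ hξ Φ
    rw [hE, Filter.inf_principal_neBot_iff]
    intro U hU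
    rw [Filter.mem_comap] at hU
    obtain ⟨V, hV, hVU⟩ := hU
    rw [mem_closure_iff_nhds] at h1
    obtain ⟨_, hz, x, hx, rfl⟩ := h1 V hV
    exact ⟨x, hVU hz, hx⟩
  have hdir : Directed (· ≥ ·) E := by
    have hmono : ∀ Φ Ψ, Φ ⊆ Ψ → E Ψ ≤ E Φ := by
      intro Φ Ψ h
      refine inf_le_inf_right _ ?_
      rw [← Filter.tendsto_iff_comap]
      have h2 : Continuous (fun (y : Ψ → ℝ) (φ : Φ) => y ⟨φ, h φ.2⟩) := by fun_prop
      exact (h2.tendsto (fun φ : Ψ => ξ (φ : StrongDual ℝ XX))).comp Filter.tendsto_comap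
    intro Φ Ψ
    exact ⟨Φ ∪ Ψ, hmono _ _ Finset.subset_union_left, hmono _ _ Finset.subset_union_right⟩
  have hinf : (⨅ Φ, E Φ).NeBot := Filter.iInf_neBot_of_directed' hdir hne
  refine ⟨Ultrafilter.of (⨅ Φ, E Φ), ?_, ?_⟩
  · have h1 : ((Ultrafilter.of (⨅ Φ, E Φ) : Ultrafilter F) : Filter F) ≤ E ∅ :=
      (Ultrafilter.of_le _).trans (iInf_le _ _)
    exact (h1.trans inf_le_right) (Filter.mem_principal_self B)
  · intro φ
    have h1 : ((Ultrafilter.of (⨅ Φ, E Φ) : Ultrafilter F) : Filter F) ≤ E {φ} :=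
      (Ultrafilter.of_le _).trans (iInf_le _ _)
    have h2 := Filter.tendsto_iff_comap.2 (h1.trans inf_le_left)
    have h3 := (tendsto_pi_nhds.1 h2) ⟨φ, Finset.mem_singleton_self φ⟩
    exact h3

/-! ### limits of blocks -/

variable {Ω : Type} {𝒱 : Ultrafilter Ω}

/-- bounded functions have limits along ultrafilters -/
lemma ultra_lim (u : Ω → ℝ) {C : ℝ} (hu : ∀ ω, |u ω| ≤ C) : ∃ l : ℝ, Tendsto u 𝒱 (𝓝 l) := by
  have hc : IsCompact (Set.Icc (-C) C) := isCompact_Icc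
  have h1 : (𝒱.map u : Filter ℝ) ≤ 𝓟 (Set.Icc (-C) C) := by
    rw [le_principal_iff, Ultrafilter.coe_map, Filter.mem_map]
    exact Filter.univ_mem' fun ω => abs_le.1 (hu ω)
  obtain ⟨l, -, hl⟩ := hc.ultrafilter_le_nhds _ h1
  exact ⟨l, hl⟩

/-- weak limits in the Hilbert space -/
lemma hilbert_lim (u : Ω → H) {C : ℝ} (hu : ∀ ω, ‖u ω‖ ≤ C) :
    ∃ b : H, ∀ h : H, Tendsto (fun ω => inner ℝ (u ω) h) 𝒱 (𝓝 (inner ℝ b h)) := by
  have h1 : ∀ h : H, ∃ l : ℝ, Tendsto (fun ω => inner ℝ (u ω) h) 𝒱 (𝓝 l) := by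
    intro h
    apply ultra_lim (C := C * ‖h‖)
    intro ω
    exact (abs_real_inner_le_norm _ _).trans (mul_le_mul_of_nonneg_right (hu ω) (norm_nonneg _))
  choose L hL using h1
  have hne : (𝒱 : Filter Ω).NeBot := 𝒱.neBot
  let Lf : H →ₗ[ℝ] ℝ :=
    { toFun := L
      map_add' := fun x y => tendsto_nhds_unique (hL (x + y)) (by
        simp_rw [inner_add_right]; exact (hL x).add (hL y))
      map_smul' := fun a x => tendsto_nhds_unique (hL (a • x)) (by
        simp_rw [real_inner_smul_right, RingHom.id_apply, smul_eq_mul]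
        exact (hL x).const_mul a) }
  have hb : ∀ h, ‖Lf h‖ ≤ C * ‖h‖ := by
    intro h
    refine le_of_tendsto (hL h).norm (Eventually.of_forall fun ω => ?_)
    rw [Real.norm_eq_abs]
    exact (abs_real_inner_le_norm _ _).trans (mul_le_mul_of_nonneg_right (hu ω) (norm_nonneg _))
  refine ⟨(InnerProductSpace.toDual ℝ H).symm (Lf.mkContinuous C hb), fun h => ?_⟩
  rw [InnerProductSpace.toDual_symm_apply]
  exact hL h

/-- Mazur -/
lemma mazur {u : Ω → H} {b : H} (hb : ∀ h : H, Tendsto (fun ω => inner ℝ (u ω) h) 𝒱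
    (𝓝 (inner ℝ b h))) {C : Set H} (hC : Convex ℝ C) (hu : ∀ᶠ ω in (𝒱 : Filter Ω), u ω ∈ C) :
    b ∈ closure C := by
  by_contra hcon
  obtain ⟨f, s, hf, hs⟩ := geometric_hahn_banach_closed_point hC.closure isClosed_closure hcon
  set w := (InnerProductSpace.toDual ℝ H).symm f with hw
  have hfw : ∀ h, f h = inner ℝ h w := by
    intro h
    rw [real_inner_comm, hw, InnerProductSpace.toDual_symm_apply]
  have hne : (𝒱 : Filter Ω).NeBot := 𝒱.neBot
  have h1 : inner ℝ b w ≤ s := by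
    refine le_of_tendsto (hb w) ?_
    filter_upwards [hu] with ω hω
    rw [← hfw]
    exact (hf _ (subset_closure hω)).le
  rw [hfw] at hs
  linarith

/-- the norm is controlled by the Hilbert norm on bounded parts of `W i` -/
lemma NN_small (i l : ℕ) {ε : ℝ} (hε : 0 < ε) : ∃ η : ℝ, 0 < η ∧ ∀ c₁ c₂ : F,
    ((1 / 4 : ℝ) ^ l) • c₁ ∈ W i → ((1 / 4 : ℝ) ^ l) • c₂ ∈ W i → ‖toH (c₁ - c₂)‖ ≤ η →
    NN (c₁ - c₂) ≤ ε := by
  obtain ⟨m, hm⟩ := pow_unbounded_of_one_lt (2 * 4 ^ l / ε) (show (1:ℝ) < 4 by norm_num)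
  have hR := R_pos i
  refine ⟨ε * ((1 / 16) ^ m * R i), by positivity, fun c₁ c₂ h₁ h₂ h => ?_⟩
  have h3 : ε⁻¹ • (c₁ - c₂) ∈ Ba (i, m) := by
    refine ⟨?_, ?_⟩
    · have h4 : (1 / 2 : ℝ) • ((1 / 4 : ℝ) ^ l • c₁) + (1 / 2 : ℝ) • (-((1 / 4 : ℝ) ^ l • c₂)) ∈ W i :=
        W_convex i h₁ (W_neg h₂) (by norm_num) (by norm_num) (by norm_num)
      have h5 := W_smul h4 (a := (1 / 4) ^ m * ε⁻¹ * (2 * 4 ^ l)) (by
        rw [abs_of_pos (by positivity)]
        rw [div_lt_iff₀ hε] at hm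
        rw [one_div, inv_pow]
        have h4m : (0:ℝ) < 4 ^ m := by positivity
        rw [show ((4:ℝ) ^ m)⁻¹ * ε⁻¹ * (2 * 4 ^ l) = (2 * 4 ^ l) / (4 ^ m * ε) by field_simp]
        rw [div_le_one (by positivity)]
        exact hm.le)
      convert h5 using 1
      have e1 : ((1 / 4 : ℝ)) ^ l * 4 ^ l = 1 := by rw [← mul_pow]; norm_num
      simp only [smul_neg, smul_add, smul_sub, smul_smul]
      rw [sub_eq_add_neg]
      congr 1
      · congr 1
        linear_combination (-((1 / 4 : ℝ) ^ m * ε⁻¹)) * e1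
      · congr 2
        linear_combination (-((1 / 4 : ℝ) ^ m * ε⁻¹)) * e1
    · rw [map_smul, norm_smul, Real.norm_eq_abs, abs_of_pos (by positivity), inv_mul_le_iff₀ hε]
      exact h
  have h4 := NN_le_one (Ba_sub_B h3).mem_B
  rw [map_smul_eq_mul, Real.norm_eq_abs, abs_of_pos (by positivity), inv_mul_le_iff₀ hε] at h4
  linarith

/-- blocks have weak limits in the Banach space -/
theorem block_lim (α : ℕ × ℕ) (b : Ω → F) (hb : ∀ ω, b ω ∈ Ba α) :
    ∃ x : XX, ∀ φ : StrongDual ℝ XX, Tendsto (fun ω => φ (io (b ω))) 𝒱 (𝓝 (φ x)) := by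
  obtain ⟨i, l⟩ := α
  have hne : (𝒱 : Filter Ω).NeBot := 𝒱.neBot
  obtain ⟨bb, hbb⟩ := hilbert_lim (𝒱 := 𝒱) (fun ω => toH (b ω)) (fun ω => (hb ω).2)
  set K : Set F := {c | ((1 / 4 : ℝ) ^ l) • c ∈ W i} with hK
  have hKc : Convex ℝ K := by
    intro x hx y hy a b ha hb hab
    have := W_convex i hx hy ha hb hab
    rw [smul_comm a, smul_comm b, ← smul_add] at this
    exact this
  have hmz : ∀ C : Set F, Convex ℝ C → (∀ᶠ ω in (𝒱 : Filter Ω), b ω ∈ C) →
      bb ∈ closure (toH '' C) := by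
    intro C hC hev
    exact mazur hbb (hC.linear_image toH) (hev.mono fun ω h => ⟨_, h, rfl⟩)
  have h1 := hmz K hKc (Eventually.of_forall fun ω => (hb ω).1)
  rw [mem_closure_iff_seq_limit] at h1
  obtain ⟨v, hv, hvl⟩ := h1
  choose c hcK hcv using hv
  have hcl : Tendsto (fun n => toH (c n)) atTop (𝓝 bb) := by simpa only [hcv] using hvl
  -- the sequence is Cauchy in the Banach space
  have hcau : CauchySeq (fun n => io (c n)) := by
    rw [Metric.cauchySeq_iff]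
    intro ε hε
    obtain ⟨η, hη, hηs⟩ := NN_small i l (half_pos hε)
    have h2 := hcl.cauchySeq
    rw [Metric.cauchySeq_iff] at h2
    obtain ⟨N, hN⟩ := h2 η hη
    refine ⟨N, fun m hm n hn => ?_⟩
    rw [dist_eq_norm, ← map_sub, norm_io]
    have h3 := hN m hm n hn
    rw [dist_eq_norm, ← map_sub] at h3
    exact lt_of_le_of_lt (hηs _ _ (hcK m) (hcK n) h3.le) (half_lt_self hε)
  obtain ⟨x, hx⟩ := cauchySeq_tendsto_of_complete hcau
  refine ⟨x, fun φ => ?_⟩
  obtain ⟨L, hL⟩ := ultra_lim (𝒱 := 𝒱) (fun ω => φ (io (b ω))) (C := ‖φ‖) (fun ω => by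
    rw [← Real.norm_eq_abs]
    refine (φ.le_opNorm _).trans ?_
    exact mul_le_of_le_one_right (norm_nonneg _) (norm_io_le (Ba_sub_B (hb ω)).mem_B))
  have hφx : Tendsto (fun n => φ (io (c n))) atTop (𝓝 (φ x)) := (φ.continuous.tendsto x).comp hx
  suffices h : φ x = L by rw [h]; exact hL
  have key : ∀ ε : ℝ, 0 < ε → |φ x - L| ≤ (‖φ‖ + 1) * ε := by
    intro ε hε
    obtain ⟨η, hη, hηs⟩ := NN_small i l hε
    set C : Set F := {c | c ∈ K ∧ |φ (io c) - L| ≤ ε} with hC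
    have hCc : Convex ℝ C := by
      intro x hx y hy a b ha hb hab
      refine ⟨hKc hx.1 hy.1 ha hb hab, ?_⟩
      have e1 : φ (io (a • x + b • y)) - L = a * (φ (io x) - L) + b * (φ (io y) - L) := by
        simp only [map_add, map_smul, smul_eq_mul]
        linear_combination L * hab
      rw [e1]
      calc |a * (φ (io x) - L) + b * (φ (io y) - L)| ≤
          |a * (φ (io x) - L)| + |b * (φ (io y) - L)| := abs_add_le _ _
        _ = a * |φ (io x) - L| + b * |φ (io y) - L| := by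
            rw [abs_mul, abs_mul, abs_of_nonneg ha, abs_of_nonneg hb]
        _ ≤ a * ε + b * ε := by
            have := hx.2; have := hy.2; gcongr
        _ = ε := by rw [← add_mul, hab, one_mul]
    have hev : ∀ᶠ ω in (𝒱 : Filter Ω), b ω ∈ C := by
      have := Metric.tendsto_nhds.1 hL ε hε
      filter_upwards [this] with ω hω
      exact ⟨(hb ω).1, by rw [← Real.dist_eq]; exact hω.le⟩
    have h2 := hmz C hCc hev
    rw [Metric.mem_closure_iff] at h2
    obtain ⟨_, ⟨c', hc', rfl⟩, hdc'⟩ := h2 (η / 2) (half_pos hη)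
    have h3 : ∀ᶠ n in atTop, |φ (io (c n)) - L| ≤ (‖φ‖ + 1) * ε := by
      have := Metric.tendsto_nhds.1 hcl (η / 2) (half_pos hη)
      filter_upwards [this] with n hn
      have h4 : ‖toH (c n - c')‖ ≤ η := by
        rw [map_sub, ← dist_eq_norm]
        calc dist (toH (c n)) (toH c') ≤ dist (toH (c n)) bb + dist bb (toH c') :=
              dist_triangle _ _ _
          _ ≤ η := by linarith
      have h5 := hηs _ _ (hcK n) hc'.1 h4
      have h6 : |φ (io (c n)) - φ (io c')| ≤ ‖φ‖ * ε := by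
        rw [← map_sub, ← map_sub, ← Real.norm_eq_abs]
        refine (φ.le_opNorm _).trans ?_
        rw [norm_io]
        gcongr
      calc |φ (io (c n)) - L| = |(φ (io (c n)) - φ (io c')) + (φ (io c') - L)| := by ring_nf
        _ ≤ |φ (io (c n)) - φ (io c')| + |φ (io c') - L| := abs_add_le _ _
        _ ≤ ‖φ‖ * ε + ε := add_le_add h6 hc'.2
        _ = (‖φ‖ + 1) * ε := by ring
    exact le_of_tendsto (hφx.sub_const L).abs h3
  by_contra hne'
  have h2 : 0 < |φ x - L| := abs_pos.2 (sub_ne_zero.2 hne')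
  have h3 : (0:ℝ) < ‖φ‖ + 1 := by positivity
  have := key (|φ x - L| / (2 * (‖φ‖ + 1))) (by positivity)
  rw [mul_div_assoc', mul_comm (‖φ‖ + 1), mul_comm 2, ← mul_div_assoc'] at this
  have e1 : |φ x - L| * ((‖φ‖ + 1) / ((‖φ‖ + 1) * 2)) = |φ x - L| / 2 := by
    field_simp
  rw [e1] at this
  linarith

end Pool.Agent.WSC
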