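import Pool.Agent.Lib_helper47.WSC.Gam

/-!
# The unit ball (counterexample for MP_4285bb_an)
-/

set_option autoImplicit false
open Finset

namespace Pool.Agent.WSC

/-- absolutely convex hull of a class -/
def W (i : ℕ) : Set F := convexHull ℝ {x | x ∈ Gam i ∨ -x ∈ Gam i}

lemma W_convex (i : ℕ) : Convex ℝ (W i) := convex_convexHull _ _

lemma gam_sub_W {i : ℕ} {x : F} (hx : x ∈ Gam i) : x ∈ W i :=
  subset_convexHull _ _ (Or.inl hx)

lemma W_bound {i : ℕ} (g : F →ₗ[ℝ] ℝ) {C : ℝ} (hC : ∀ x ∈ Gam i, |g x| ≤ C) {x : F}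
    (hx : x ∈ W i) : |g x| ≤ C := by
  have hconv : Convex ℝ {x : F | |g x| ≤ C} := by
    intro x hx y hy a b ha hb hab
    simp only [Set.mem_ofPred_eq] at *
    rw [map_add, map_smul, map_smul, smul_eq_mul, smul_eq_mul]
    calc |a * g x + b * g y| ≤ |a * g x| + |b * g y| := abs_add_le _ _
      _ = a * |g x| + b * |g y| := by rw [abs_mul, abs_mul, abs_of_nonneg ha, abs_of_nonneg hb]
      _ ≤ a * C + b * C := by gcongr
      _ = C := by rw [← add_mul, hab, one_mul]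
  refine convexHull_min ?_ hconv hx
  intro y hy
  rcases hy with hy | hy
  · exact hC y hy
  · have := hC _ hy
    rwa [map_neg, abs_neg] at this

lemma W_neg {i : ℕ} {x : F} (hx : x ∈ W i) : -x ∈ W i := by
  have hconv : Convex ℝ {x : F | -x ∈ W i} := by
    intro x hx y hy a b ha hb hab
    have := W_convex i hx hy ha hb hab
    simp only [Set.mem_ofPred_eq] at *
    rw [neg_add, ← smul_neg, ← smul_neg]
    exact this
  refine convexHull_min ?_ hconv hx
  intro y hy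
  refine subset_convexHull _ _ ?_
  rcases hy with hy | hy
  · exact Or.inr (by rwa [neg_neg])
  · exact Or.inl hy

lemma gam_nonempty (i : ℕ) : ∃ x, x ∈ Gam i := by
  cases i with
  | zero => exact ⟨e 0 false, 0, false, rfl⟩
  | succ j => exact ⟨(nu j : ℝ)⁻¹ • vec [], [], trivial, Nat.zero_le _, rfl⟩

lemma W_zero (i : ℕ) : (0 : F) ∈ W i := by
  obtain ⟨x, hx⟩ := gam_nonempty i
  have h1 := gam_sub_W hx
  have h2 := W_neg h1
  have := W_convex i h1 h2 (a := 1/2) (b := 1/2) (by norm_num) (by norm_num) (by norm_num)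
  simpa using this

lemma W_smul {i : ℕ} {x : F} (hx : x ∈ W i) {a : ℝ} (ha : |a| ≤ 1) : a • x ∈ W i := by
  rcases le_total 0 a with h | h
  · have := W_convex i hx (W_zero i) (a := a) (b := 1 - a) h
      (by rw [abs_of_nonneg h] at ha; linarith) (by ring)
    simpa using this
  · have := W_convex i (W_neg hx) (W_zero i) (a := -a) (b := 1 + a) (by linarith)
      (by rw [abs_of_nonpos h] at ha; linarith) (by ring)
    simpa using this

lemma W_norm {i : ℕ} {x : F} (hx : x ∈ W i) : ‖toH x‖ ≤ R i := by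
  have hconv : Convex ℝ {x : F | ‖toH x‖ ≤ R i} := by
    intro x hx y hy a b ha hb hab
    simp only [Set.mem_ofPred_eq] at *
    rw [map_add, map_smul, map_smul]
    calc ‖a • toH x + b • toH y‖ ≤ ‖a • toH x‖ + ‖b • toH y‖ := norm_add_le _ _
      _ = a * ‖toH x‖ + b * ‖toH y‖ := by
          rw [norm_smul, norm_smul, Real.norm_eq_abs, Real.norm_eq_abs, abs_of_nonneg ha,
            abs_of_nonneg hb]
      _ ≤ a * R i + b * R i := by gcongr
      _ = R i := by rw [← add_mul, hab, one_mul]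
  refine convexHull_min ?_ hconv hx
  intro y hy
  rcases hy with hy | hy
  · exact gam_norm hy
  · have := gam_norm hy
    rwa [map_neg, norm_neg] at this

lemma W_om {i j : ℕ} {x y : F} (hx : x ∈ W i) (hy : y ∈ W j) :
    |om x y| * (R i * R j) ≤ (1 / 16) ^ (i + j) := by
  have hRi := R_pos i
  have hRj := R_pos j
  rw [← le_div_iff₀ (by positivity)]
  have h1 : ∀ y ∈ Gam j, |om.flip y x| ≤ (1 / 16) ^ (i + j) / (R i * R j) := by
    intro y hy
    refine W_bound (om.flip y) ?_ hx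
    intro x hx
    rw [LinearMap.flip_apply, le_div_iff₀ (by positivity)]
    exact gam_om hx hy
  exact W_bound (om x) (fun y hy => h1 y hy) hy

/-! ### the building blocks -/

/-- building blocks -/
def Ba (α : ℕ × ℕ) : Set F :=
  {b | ((1 / 4 : ℝ) ^ α.2) • b ∈ W α.1 ∧ ‖toH b‖ ≤ (1 / 16) ^ α.2 * R α.1}

lemma Ba_convex (α : ℕ × ℕ) : Convex ℝ (Ba α) := by
  intro x hx y hy a b ha hb hab
  refine ⟨?_, ?_⟩
  · have := W_convex α.1 hx.1 hy.1 ha hb hab
    rw [smul_comm a, smul_comm b, ← smul_add] at this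
    exact this
  · rw [map_add, map_smul, map_smul]
    calc ‖a • toH x + b • toH y‖ ≤ ‖a • toH x‖ + ‖b • toH y‖ := norm_add_le _ _
      _ = a * ‖toH x‖ + b * ‖toH y‖ := by
          rw [norm_smul, norm_smul, Real.norm_eq_abs, Real.norm_eq_abs, abs_of_nonneg ha,
            abs_of_nonneg hb]
      _ ≤ a * ((1 / 16) ^ α.2 * R α.1) + b * ((1 / 16) ^ α.2 * R α.1) := by
          gcongr
          · exact hx.2
          · exact hy.2
      _ = (1 / 16) ^ α.2 * R α.1 := by rw [← add_mul, hab, one_mul]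

lemma Ba_neg {α : ℕ × ℕ} {x : F} (hx : x ∈ Ba α) : -x ∈ Ba α := by
  refine ⟨?_, ?_⟩
  · rw [smul_neg]; exact W_neg hx.1
  · rw [map_neg, norm_neg]; exact hx.2

lemma Ba_zero (α : ℕ × ℕ) : (0 : F) ∈ Ba α := by
  refine ⟨?_, ?_⟩
  · rw [smul_zero]; exact W_zero _
  · rw [map_zero, norm_zero]
    have := R_pos α.1
    positivity

lemma Ba_om {α α' : ℕ × ℕ} {b b' : F} (hb : b ∈ Ba α) (hb' : b' ∈ Ba α') :
    |om b b'| ≤ ((1 / 2) ^ α.2 * (1 / 4) ^ α.1) * ((1 / 2) ^ α'.2 * (1 / 4) ^ α'.1) := by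
  obtain ⟨i, l⟩ := α
  obtain ⟨j, m⟩ := α'
  have hRi := R_pos i
  have hRj := R_pos j
  have h1 := W_om hb.1 hb'.1
  have h2 := (om_le b b').trans (mul_le_mul hb.2 hb'.2 (norm_nonneg _) (by positivity))
  simp only at *
  rw [map_smul, map_smul om, LinearMap.smul_apply, smul_eq_mul, smul_eq_mul, abs_mul, abs_mul,
    abs_of_pos (show (0:ℝ) < (1/4) ^ l by positivity),
    abs_of_pos (show (0:ℝ) < (1/4) ^ m by positivity)] at h1
  set z := |om b b'| with hz
  have hz0 : 0 ≤ z := abs_nonneg _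
  have h3 : (((1/4:ℝ)) ^ m * ((1/4) ^ l * z) * (R i * R j)) * z ≤
      (1 / 16) ^ (i + j) * ((1 / 16) ^ l * R i * ((1 / 16) ^ m * R j)) :=
    mul_le_mul h1 h2 hz0 (by positivity)
  have h4 : z ^ 2 ≤ (((1 / 2) ^ l * (1 / 4) ^ i) * ((1 / 2) ^ m * (1 / 4) ^ j)) ^ 2 := by
    have e1 : (((1 / 2:ℝ) ^ l * (1 / 4) ^ i) * ((1 / 2) ^ m * (1 / 4) ^ j)) ^ 2 =
        (1/4) ^ l * (1/16) ^ i * ((1/4) ^ m * (1/16) ^ j) := by
      rw [mul_pow, mul_pow, mul_pow, ← pow_mul, ← pow_mul, ← pow_mul, ← pow_mul,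
        mul_comm l 2, mul_comm i 2, mul_comm m 2, mul_comm j 2, pow_mul, pow_mul, pow_mul, pow_mul]
      norm_num
    have e2 : (1/16:ℝ) ^ l = (1/4) ^ l * (1/4) ^ l := by rw [← mul_pow]; norm_num
    have e3 : (1/16:ℝ) ^ m = (1/4) ^ m * (1/4) ^ m := by rw [← mul_pow]; norm_num
    rw [e1]
    rw [e2, e3, pow_add] at h3
    have hpos : (0:ℝ) < (1/4) ^ m * (1/4) ^ l * (R i * R j) := by positivity
    refine le_of_mul_le_mul_left ?_ hpos
    calc (1/4:ℝ) ^ m * (1/4) ^ l * (R i * R j) * z ^ 2 =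
        (((1/4:ℝ)) ^ m * ((1/4) ^ l * z) * (R i * R j)) * z := by ring
      _ ≤ _ := h3
      _ = _ := by ring
  exact le_of_sq_le_sq h4 (by positivity)

/-- representable vectors -/
def Rep (w : ℝ) (s : Finset (ℕ × ℕ)) (x : F) : Prop :=
  ∃ (c : ℕ × ℕ → ℝ) (b : ℕ × ℕ → F), (∀ α, 0 ≤ c α) ∧ (∀ α, b α ∈ Ba α) ∧
    ∑ α ∈ s, c α ^ 4 ≤ w ∧ x = ∑ α ∈ s, c α • b α

lemma Rep.neg {w : ℝ} {s : Finset (ℕ × ℕ)} {x : F} (h : Rep w s x) : Rep w s (-x) := by
  obtain ⟨c, b, hc, hb, hw, rfl⟩ := h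
  refine ⟨c, fun α => - b α, hc, fun α => Ba_neg (hb α), hw, ?_⟩
  simp

lemma Rep.mono_w {w w' : ℝ} {s : Finset (ℕ × ℕ)} {x : F} (h : Rep w s x) (hw : w ≤ w') :
    Rep w' s x := by
  obtain ⟨c, b, hc, hb, h1, h2⟩ := h
  exact ⟨c, b, hc, hb, h1.trans hw, h2⟩

lemma Rep.mono_s {w : ℝ} {s s' : Finset (ℕ × ℕ)} {x : F} (h : Rep w s x) (hs : s ⊆ s') :
    Rep w s' x := by
  obtain ⟨c, b, hc, hb, h1, h2⟩ := h
  refine ⟨fun α => if α ∈ s then c α else 0, b, ?_, hb, ?_, ?_⟩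
  · intro α; dsimp only; split_ifs
    · exact hc α
    · exact le_refl _
  · refine le_trans (le_of_eq ?_) h1
    rw [← Finset.sum_subset hs]
    · apply Finset.sum_congr rfl
      intro α hα
      simp [hα]
    · intro α _ hα
      simp [hα]
  · rw [h2, ← Finset.sum_subset hs]
    · apply Finset.sum_congr rfl
      intro α hα
      simp [hα]
    · intro α _ hα
      simp [hα]

lemma Rep.add {w w' : ℝ} {s s' : Finset (ℕ × ℕ)} {x y : F} (h : Rep w s x) (h' : Rep w' s' y)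
    (hd : Disjoint s s') : Rep (w + w') (s ∪ s') (x + y) := by
  obtain ⟨c, b, hc, hb, h1, h2⟩ := h
  obtain ⟨c', b', hc', hb', h1', h2'⟩ := h'
  refine ⟨fun α => if α ∈ s then c α else c' α, fun α => if α ∈ s then b α else b' α,
    ?_, ?_, ?_, ?_⟩
  · intro α; dsimp only; split_ifs
    · exact hc α
    · exact hc' α
  · intro α; dsimp only; split_ifs
    · exact hb α
    · exact hb' α
  · rw [Finset.sum_union hd]
    apply add_le_add
    · refine le_trans (le_of_eq ?_) h1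
      apply Finset.sum_congr rfl
      intro α hα; simp [hα]
    · refine le_trans (le_of_eq ?_) h1'
      apply Finset.sum_congr rfl
      intro α hα; simp [Finset.disjoint_right.1 hd hα]
  · rw [Finset.sum_union hd, h2, h2']
    congr 1
    · apply Finset.sum_congr rfl
      intro α hα; simp [hα]
    · apply Finset.sum_congr rfl
      intro α hα; simp [Finset.disjoint_right.1 hd hα]

lemma Rep.smul {w : ℝ} {s : Finset (ℕ × ℕ)} {x : F} (h : Rep w s x) {a : ℝ} (ha : 0 ≤ a) :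
    Rep (a ^ 4 * w) s (a • x) := by
  obtain ⟨c, b, hc, hb, h1, h2⟩ := h
  refine ⟨fun α => a * c α, b, fun α => mul_nonneg ha (hc α), hb, ?_, ?_⟩
  · simp_rw [mul_pow, ← Finset.mul_sum]
    exact mul_le_mul_of_nonneg_left h1 (by positivity)
  · rw [h2, Finset.smul_sum]
    simp_rw [smul_smul]

/-- the unit ball -/
def B : Set F := {x | ∃ s, Rep 1 s x}

lemma Rep.mem_B {s : Finset (ℕ × ℕ)} {x : F} (h : Rep 1 s x) : x ∈ B := ⟨s, h⟩

lemma Ba_sub_B {α : ℕ × ℕ} {x : F} (hx : x ∈ Ba α) : Rep 1 {α} x := by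
  classical
  refine ⟨fun _ => 1, fun β => if β = α then x else 0, fun _ => zero_le_one, ?_, ?_, ?_⟩
  · intro β; dsimp only; split_ifs with h
    · rw [h]; exact hx
    · exact Ba_zero β
  · simp
  · simp

lemma gam_Ba {i : ℕ} {x : F} (hx : x ∈ Gam i) : x ∈ Ba (i, 0) := by
  refine ⟨?_, ?_⟩
  · simpa using gam_sub_W hx
  · simpa using gam_norm hx

lemma gam_sub_B {i : ℕ} {x : F} (hx : x ∈ Gam i) : x ∈ B := (Ba_sub_B (gam_Ba hx)).mem_B

lemma B_neg {x : F} (hx : x ∈ B) : -x ∈ B := by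
  obtain ⟨s, h⟩ := hx; exact ⟨s, h.neg⟩

lemma B_zero : (0 : F) ∈ B := (Ba_sub_B (Ba_zero (0, 0))).mem_B

lemma B_convex : Convex ℝ B := by
  classical
  rintro x ⟨s, hx⟩ y ⟨s', hy⟩ a b ha hb hab
  obtain ⟨c, u, hc, hu, h1, h2⟩ := hx.mono_s (Finset.subset_union_left (s₂ := s'))
  obtain ⟨c', u', hc', hu', h1', h2'⟩ := hy.mono_s (Finset.subset_union_right (s₁ := s))
  refine ⟨s ∪ s', fun α => a * c α + b * c' α,
    fun α => (a * c α / (a * c α + b * c' α)) • u α + (b * c' α / (a * c α + b * c' α)) • u' α,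
    ?_, ?_, ?_, ?_⟩
  · intro α
    have := hc α; have := hc' α; positivity
  · intro α
    have h3 := hc α
    have h4 := hc' α
    have h5 : 0 ≤ a * c α := by positivity
    have h6 : 0 ≤ b * c' α := by positivity
    rcases eq_or_lt_of_le (add_nonneg h5 h6) with h7 | h7
    · dsimp only
      rw [← h7]
      simp [Ba_zero]
    · apply Ba_convex α (hu α) (hu' α) (by positivity) (by positivity)
      field_simp
  · calc ∑ α ∈ s ∪ s', (a * c α + b * c' α) ^ 4
        ≤ ∑ α ∈ s ∪ s', (a * c α ^ 4 + b * c' α ^ 4) := by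
          apply Finset.sum_le_sum
          intro α _
          have := (convexOn_pow 4).2 (hc α) (hc' α) ha hb hab
          simpa [smul_eq_mul] using this
      _ = a * ∑ α ∈ s ∪ s', c α ^ 4 + b * ∑ α ∈ s ∪ s', c' α ^ 4 := by
          rw [Finset.sum_add_distrib, Finset.mul_sum, Finset.mul_sum]
      _ ≤ a * 1 + b * 1 := by gcongr
      _ = 1 := by linarith
  · rw [h2, h2', Finset.smul_sum, Finset.smul_sum, ← Finset.sum_add_distrib]
    apply Finset.sum_congr rfl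
    intro α _
    have h3 := hc α
    have h4 := hc' α
    have h5 : 0 ≤ a * c α := by positivity
    have h6 : 0 ≤ b * c' α := by positivity
    dsimp only
    rcases eq_or_lt_of_le (add_nonneg h5 h6) with h7 | h7
    · have h8 : a * c α = 0 := by linarith
      have h9 : b * c' α = 0 := by linarith
      rw [smul_smul, smul_smul, h8, h9]
      simp
    · rw [smul_add, smul_smul, smul_smul, smul_smul, smul_smul, mul_div_cancel₀ _ h7.ne',
        mul_div_cancel₀ _ h7.ne']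

lemma B_smul {x : F} (hx : x ∈ B) {a : ℝ} (ha : |a| ≤ 1) : a • x ∈ B := by
  rcases le_total 0 a with h | h
  · have := B_convex hx B_zero (a := a) (b := 1 - a) h
      (by rw [abs_of_nonneg h] at ha; linarith) (by ring)
    simpa using this
  · have := B_convex (B_neg hx) B_zero (a := -a) (b := 1 + a) (by linarith)
      (by rw [abs_of_nonpos h] at ha; linarith) (by ring)
    simpa using this

lemma B_balanced : Balanced ℝ B := by
  rw [balanced_iff_smul_mem]
  intro a ha x hx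
  exact B_smul hx (by simpa using ha)

lemma e_mem_B (m : ℕ) (c : Bool) : e m c ∈ B := gam_sub_B (i := 0) ⟨m, c, rfl⟩

lemma exists_smul_B (x : F) : ∃ r : ℝ, 0 < r ∧ ∃ y ∈ B, x = r • y := by
  induction x using Finsupp.induction_linear with
  | zero => exact ⟨1, one_pos, 0, B_zero, by simp⟩
  | add f g hf hg =>
    obtain ⟨r, hr, y, hy, rfl⟩ := hf
    obtain ⟨r', hr', y', hy', rfl⟩ := hg
    refine ⟨r + r', by positivity, (r / (r + r')) • y + (r' / (r + r')) • y',
      B_convex hy hy' (by positivity) (by positivity) (by field_simp), ?_⟩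
    rw [smul_add, smul_smul, smul_smul, mul_div_cancel₀ _ (by positivity : r + r' ≠ 0),
      mul_div_cancel₀ _ (by positivity : r + r' ≠ 0)]
  | single p a =>
    refine ⟨|a| + 1, by positivity, (a / (|a| + 1)) • e p.1 p.2, B_smul (e_mem_B _ _) ?_, ?_⟩
    · rw [abs_div, abs_of_pos (show (0:ℝ) < |a| + 1 by positivity)]
      rw [div_le_one (by positivity)]
      linarith
    · rw [smul_smul, mul_div_cancel₀ _ (by positivity : |a| + 1 ≠ 0)]
      simp [e]

lemma B_absorbent : Absorbent ℝ B := by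
  intro x
  rw [absorbs_iff_norm]
  obtain ⟨r, hr, y, hy, rfl⟩ := exists_smul_B x
  refine ⟨r, ?_⟩
  intro c hc
  rw [Set.singleton_subset_iff]
  have hc0 : c ≠ 0 := by
    intro h; rw [h, norm_zero] at hc; linarith
  refine ⟨(r / c) • y, B_smul hy ?_, ?_⟩
  · rw [abs_div, abs_of_pos hr, div_le_one (abs_pos.2 hc0)]
    exact hc
  · dsimp only
    rw [smul_smul, mul_div_cancel₀ _ hc0]

/-- the norm -/
noncomputable def NN : Seminorm ℝ F := gaugeSeminorm B_balanced B_convex B_absorbent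

lemma NN_le_one {x : F} (hx : x ∈ B) : NN x ≤ 1 := gauge_le_one_of_mem hx

lemma mem_B_of_NN {x : F} (hx : NN x < 1) : x ∈ B := by
  obtain ⟨r, hr0, hr1, y, hy, rfl⟩ := exists_lt_of_gauge_lt B_absorbent hx
  exact B_smul hy (by rw [abs_of_pos hr0]; exact hr1.le)

/-- functionals bounded on the ball -/
lemma bound_of_B {g : F →ₗ[ℝ] ℝ} {C : ℝ} (h : ∀ x ∈ B, |g x| ≤ C) (x : F) :
    |g x| ≤ C * NN x := by
  have key : ∀ r : ℝ, NN x < r → |g x| ≤ C * r := by
    intro r hr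
    have hr0 : 0 < r := lt_of_le_of_lt (apply_nonneg NN x) hr
    have h1 : NN (r⁻¹ • x) < 1 := by
      rw [map_smul_eq_mul, Real.norm_eq_abs, abs_of_pos (by positivity), inv_mul_lt_iff₀ hr0]
      linarith
    have h2 := h _ (mem_B_of_NN h1)
    rw [map_smul, smul_eq_mul, abs_mul, abs_of_pos (show (0:ℝ) < r⁻¹ by positivity),
      inv_mul_le_iff₀ hr0] at h2
    linarith
  have hcont : Filter.Tendsto (fun r : ℝ => C * r) (nhdsWithin (NN x) (Set.Ioi (NN x)))
      (nhds (C * NN x)) :=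
    ((continuous_const.mul continuous_id).tendsto _).mono_left nhdsWithin_le_nhds
  refine ge_of_tendsto hcont ?_
  filter_upwards [self_mem_nhdsWithin] with r hr
  exact key r hr

lemma Rep.le_one {s : Finset (ℕ × ℕ)} {c : ℕ × ℕ → ℝ}
    (h : ∑ α ∈ s, c α ^ 4 ≤ 1) {α : ℕ × ℕ} (hα : α ∈ s) : c α ≤ 1 := by
  have h1 : c α ^ 4 ≤ 1 :=
    (Finset.single_le_sum (f := fun α => c α ^ 4) (fun β _ => by positivity) hα).trans h
  by_contra h2
  push Not at h2
  have := one_lt_pow₀ h2 (n := 4) (by norm_num)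
  linarith

/-- boundedness on representable vectors -/
lemma Rep.bound {g : F →ₗ[ℝ] ℝ} {C : ℝ} (hg : ∀ x ∈ B, |g x| ≤ C) {m : ℕ} (hm : 0 < m)
    {s : Finset (ℕ × ℕ)} {x : F} (h : Rep ((m : ℝ) ^ 4) s x) : |g x| ≤ C * m := by
  have hm' : (0:ℝ) < m := by exact_mod_cast hm
  have h1 : Rep 1 s ((m : ℝ)⁻¹ • x) := by
    have := h.smul (a := (m:ℝ)⁻¹) (by positivity)
    rwa [← mul_pow, inv_mul_cancel₀ hm'.ne', one_pow] at this
  have h2 := hg _ h1.mem_B
  rw [map_smul, smul_eq_mul, abs_mul, abs_of_pos (show (0:ℝ) < (m:ℝ)⁻¹ by positivity),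
    inv_mul_le_iff₀ hm'] at h2
  linarith

lemma Rep.bound2 {S : F →ₗ[ℝ] F →ₗ[ℝ] ℝ} {C : ℝ} (hS : ∀ x ∈ B, ∀ y ∈ B, |S x y| ≤ C)
    {m m' : ℕ} (hm : 0 < m) (hm' : 0 < m')
    {s s' : Finset (ℕ × ℕ)} {x y : F} (h : Rep ((m : ℝ) ^ 4) s x) (h' : Rep ((m' : ℝ) ^ 4) s' y) :
    |S x y| ≤ C * m * m' := by
  have h1 : ∀ y ∈ B, |S.flip y x| ≤ C * m := by
    intro y hy
    exact Rep.bound (g := S.flip y) (fun x hx => hS x hx y hy) hm h
  exact Rep.bound (g := S x) (fun y hy => h1 y hy) hm' h'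

lemma kappa_sum (s : Finset (ℕ × ℕ)) :
    ∑ α ∈ s, ((1 / 2 : ℝ) ^ α.2 * (1 / 4) ^ α.1) ≤ 4 := by
  obtain ⟨n, hn⟩ : ∃ n : ℕ, s ⊆ Finset.range n ×ˢ Finset.range n := by
    refine ⟨(s.sup (fun α => max α.1 α.2)) + 1, ?_⟩
    intro α hα
    have := Finset.le_sup (f := fun α : ℕ × ℕ => max α.1 α.2) hα
    simp only [Finset.mem_product, Finset.mem_range]
    have h1 := le_max_left α.1 α.2
    have h2 := le_max_right α.1 α.2
    omega
  refine (Finset.sum_le_sum_of_subset_of_nonneg hn (fun α _ _ => by positivity)).trans ?_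
  rw [Finset.sum_product]
  simp only
  simp_rw [← Finset.sum_mul, ← Finset.mul_sum]
  have h1 : ∑ i ∈ Finset.range n, (1 / 2 : ℝ) ^ i ≤ 2 := sum_geometric_two_le n
  have h2 : ∑ i ∈ Finset.range n, (1 / 4 : ℝ) ^ i ≤ 2 := by
    refine le_trans (Finset.sum_le_sum fun i _ => ?_) h1
    gcongr
    norm_num
  have h3 : 0 ≤ ∑ i ∈ Finset.range n, (1 / 4 : ℝ) ^ i := by positivity
  calc (∑ i ∈ Finset.range n, (1 / 2 : ℝ) ^ i) * ∑ i ∈ Finset.range n, (1 / 4 : ℝ) ^ i
      ≤ 2 * 2 := mul_le_mul h1 h2 h3 (by norm_num)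
    _ = 4 := by norm_num

/-- the alternating form is bounded on the ball -/
theorem om_bounded {x y : F} (hx : x ∈ B) (hy : y ∈ B) : |om x y| ≤ 16 := by
  obtain ⟨s, c, b, hc, hb, h1, rfl⟩ := hx
  obtain ⟨s', c', b', hc', hb', h1', rfl⟩ := hy
  have h2 : ∀ α ∈ s, |om (c α • b α) (∑ β ∈ s', c' β • b' β)| ≤
      ((1 / 2 : ℝ) ^ α.2 * (1 / 4) ^ α.1) * 4 := by
    intro α hα
    have h3 : ∀ β ∈ s', |om (c α • b α) (c' β • b' β)| ≤
        ((1 / 2 : ℝ) ^ α.2 * (1 / 4) ^ α.1) * ((1 / 2 : ℝ) ^ β.2 * (1 / 4) ^ β.1) := by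
      intro β hβ
      rw [map_smul, map_smul om, LinearMap.smul_apply, smul_eq_mul, smul_eq_mul, abs_mul, abs_mul,
        abs_of_nonneg (hc α), abs_of_nonneg (hc' β)]
      have h4 := Rep.le_one h1 hα
      have h5 := Rep.le_one h1' hβ
      have h6 := Ba_om (hb α) (hb' β)
      calc c' β * (c α * |om (b α) (b' β)|) ≤ 1 * (1 * |om (b α) (b' β)|) := by
            have := hc α
            gcongr
        _ ≤ _ := by rw [one_mul, one_mul]; exact h6
    rw [map_sum]
    refine (Finset.abs_sum_le_sum_abs _ _).trans ((Finset.sum_le_sum h3).trans ?_)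
    rw [← Finset.mul_sum]
    exact mul_le_mul_of_nonneg_left (kappa_sum s') (by positivity)
  rw [map_sum om, LinearMap.sum_apply]
  refine (Finset.abs_sum_le_sum_abs _ _).trans ((Finset.sum_le_sum h2).trans ?_)
  rw [← Finset.sum_mul]
  have := kappa_sum s
  linarith

end Pool.Agent.WSC
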