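import Pool.Agent.Lib_helper47.WSC.Pair

/-!
# Special lists (counterexample for MP_4285bb_an)
-/

set_option autoImplicit false
open Finset

namespace Pool.Agent.WSC

/-! ### countability -/

/-- labels -/
abbrev Lab : Type := (ℕ × Bool) ⊕ (Σ q : ℕ, (Fin (M q) → Bool))

/-- arity -/
def ar : Lab → Type
  | Sum.inl _ => Fin 0
  | Sum.inr ⟨q, _⟩ => Fin (M q) × Bool

instance (a : Lab) : Fintype (ar a) := by
  rcases a with a | ⟨q, ε⟩
  · exact inferInstanceAs (Fintype (Fin 0))
  · exact inferInstanceAs (Fintype (Fin (M q) × Bool))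

instance (a : Lab) : Encodable (ar a) := by
  rcases a with a | ⟨q, ε⟩
  · exact inferInstanceAs (Encodable (Fin 0))
  · exact inferInstanceAs (Encodable (Fin (M q) × Bool))

/-- embedding into a W-type -/
def toW : Tr → WType ar
  | .leaf m c => ⟨Sum.inl (m, c), fun x => Fin.elim0 x⟩
  | .node q ε f => ⟨Sum.inr ⟨q, ε⟩, fun p => toW (f p.1 p.2)⟩

lemma toW_inj : Function.Injective toW := by
  intro t
  induction t with
  | leaf m c =>
    intro t' h
    cases t' with
    | leaf m' c' =>
      simp only [toW, WType.mk.injEq, Sum.inl.injEq, Prod.mk.injEq] at h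
      obtain ⟨⟨h1, h2⟩, _⟩ := h
      rw [h1, h2]
    | node q ε f =>
      simp [toW] at h
  | node q ε f ih =>
    intro t' h
    cases t' with
    | leaf m' c' => simp [toW] at h
    | node q' ε' f' =>
      simp only [toW, WType.mk.injEq, Sum.inr.injEq, Sigma.mk.injEq] at h
      obtain ⟨⟨h1, h2⟩, h3⟩ := h
      subst h1
      have h2' := eq_of_heq h2
      subst h2'
      have h3' := eq_of_heq h3
      congr 1
      funext j c
      exact ih j c (congrFun h3' (j, c))

instance : Countable Tr := toW_inj.countable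

/-- an injective coding of lists of trees -/
noncomputable def code : List Tr → ℕ := (exists_injective_nat (List Tr)).choose

lemma code_inj : Function.Injective code := (exists_injective_nat (List Tr)).choose_spec

/-! ### special lists (latest element first) -/

/-- special lists of class `j` -/
def Spec (j : ℕ) : List Tr → Prop
  | [] => True
  | t :: τ => Spec j τ ∧ t.Adm j ∧ t.key.1 = true ∧ j < t.key.2 ∧
      (Nat.unpair t.key.2).1 = code τ

/-- vector of a list -/
noncomputable def vec (τ : List Tr) : F := (τ.map Tr.val).sum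

@[simp] lemma vec_nil : vec [] = 0 := rfl
@[simp] lemma vec_cons (t : Tr) (τ : List Tr) : vec (t :: τ) = t.val + vec τ := by
  simp [vec]

lemma Spec.mem {j : ℕ} {τ : List Tr} (h : Spec j τ) {s : Tr} (hs : s ∈ τ) :
    s.Adm j ∧ s.key.1 = true ∧ j < s.key.2 := by
  induction τ with
  | nil => simp at hs
  | cons t τ ih =>
    rcases List.mem_cons.1 hs with h1 | h1
    · subst h1; exact ⟨h.2.1, h.2.2.1, h.2.2.2.1⟩
    · exact ih h.1 h1

lemma Spec.mem_code {j : ℕ} {τ : List Tr} (h : Spec j τ) {s : Tr} (hs : s ∈ τ) :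
    ∃ p : List Tr, (s :: p) <:+ τ ∧ (Nat.unpair s.key.2).1 = code p := by
  induction τ with
  | nil => simp at hs
  | cons t τ ih =>
    rcases List.mem_cons.1 hs with h1 | h1
    · subst h1; exact ⟨τ, List.suffix_refl _, h.2.2.2.2⟩
    · obtain ⟨p, hp, hc⟩ := ih h.1 h1
      exact ⟨p, hp.trans (List.suffix_cons _ _), hc⟩

lemma ir_le_of_key {t : Tr} {j : ℕ} (h2 : j < t.key.2) :
    t.ir ≤ co (j + 1) := by
  cases t with
  | leaf m c => exact (co_pos _).le
  | node q ε f => exact co_anti h2

/-- sum of the pairings of a tree with the elements of a list -/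
noncomputable def TT (β : F →ₗ[ℝ] F →ₗ[ℝ] ℝ) (t : Tr) (τ : List Tr) : ℝ :=
  (τ.map (fun s => |β t.val s.val|)).sum

lemma TT_cons (β : F →ₗ[ℝ] F →ₗ[ℝ] ℝ) (t s : Tr) (τ : List Tr) :
    TT β t (s :: τ) = |β t.val s.val| + TT β t τ := by simp [TT]

lemma TT_nil (β : F →ₗ[ℝ] F →ₗ[ℝ] ℝ) (t : Tr) : TT β t [] = 0 := by simp [TT]

lemma abs_le_TT (β : F →ₗ[ℝ] F →ₗ[ℝ] ℝ) (t : Tr) (τ : List Tr) :
    |β t.val (vec τ)| ≤ TT β t τ := by
  induction τ with
  | nil => simp [TT]
  | cons s τ ih =>
    rw [TT_cons, vec_cons, map_add]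
    exact (abs_add_le _ _).trans (by linarith)

lemma pow39 {n j : ℕ} (h : n ≤ j) : (3:ℝ) ^ (n + j) ≤ 9 ^ j := by
  calc (3:ℝ) ^ (n + j) ≤ 3 ^ (j + j) := pow_le_pow_right₀ (by norm_num) (by omega)
    _ = 9 ^ j := by rw [pow_add, ← mul_pow]; norm_num

lemma TT_unmatched {β : F →ₗ[ℝ] F →ₗ[ℝ] ℝ} (hβ : Ctrl β) {n j : ℕ} (hnj : n ≤ j) {t : Tr}
    (ht : t.Adm n) (hir : t.ir ≤ co (j + 1)) {τ : List Tr} (hτ : Spec j τ)
    (hk : ∀ s ∈ τ, t.key ≠ s.key) :
    TT β t τ ≤ τ.length * (9 ^ j * co (j + 1)) := by
  induction τ with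
  | nil => simp [TT]
  | cons s τ ih =>
    rw [TT_cons]
    have h1 := ih hτ.1 (fun s hs => hk s (List.mem_cons_of_mem _ hs))
    have h2 := pairing hβ ht hτ.2.1
    rw [if_neg (hk s List.mem_cons_self)] at h2
    have h3 : max t.ir s.ir ≤ co (j + 1) := max_le hir (ir_le_of_key hτ.2.2.2.1)
    have h4 : |β t.val s.val| ≤ 9 ^ j * co (j + 1) :=
      h2.trans (mul_le_mul (pow39 hnj) h3 ((Tr.ir_nonneg t).trans (le_max_left _ _)) (by positivity))
    rw [List.length_cons]
    push_cast
    linarith

lemma pair_le {β : F →ₗ[ℝ] F →ₗ[ℝ] ℝ} (hβ : Ctrl β) {n j : ℕ} (hnj : n ≤ j) {t s : Tr}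
    (ht : t.Adm n) (hs : s.Adm j) : |β t.val s.val| ≤ 9 ^ j := by
  refine (pairing hβ ht hs).trans ?_
  have h1 : (if t.key = s.key then (1:ℝ) else max t.ir s.ir) ≤ 1 := by
    split_ifs with h
    · exact le_refl _
    · refine max_le ?_ ?_
      · cases t with
        | leaf m c => exact zero_le_one
        | node q ε f => exact co_le_one q
      · cases s with
        | leaf m c => exact zero_le_one
        | node q ε f => exact co_le_one q
  calc 3 ^ (n + j) * (if t.key = s.key then (1:ℝ) else max t.ir s.ir) ≤ 9 ^ j * 1 :=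
        mul_le_mul (pow39 hnj) h1 (by split_ifs; exact zero_le_one; exact (Tr.ir_nonneg t).trans (le_max_left _ _)) (by positivity)
    _ = 9 ^ j := mul_one _

/-- elements of the tail have keys different from the head -/
lemma head_key {j : ℕ} {t : Tr} {τ : List Tr} (hτ : Spec j τ)
    (hc : (Nat.unpair t.key.2).1 = code τ) : ∀ s ∈ τ, t.key ≠ s.key := by
  intro s hs hk
  obtain ⟨p, hp, hcp⟩ := hτ.mem_code hs
  rw [← hk, hc] at hcp
  have := code_inj hcp
  subst this
  have := hp.length_le
  simp at this

/-- pairing of vectors of lists of the same class -/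
theorem same_class {β : F →ₗ[ℝ] F →ₗ[ℝ] ℝ} (hβ : Ctrl β) (halt : ∀ x, β x x = 0) (j : ℕ) :
    ∀ (N : ℕ) (τ τ' : List Tr), τ.length + τ'.length = N → Spec j τ → Spec j τ' →
    |β (vec τ) (vec τ')| ≤ 9 ^ j * (1 + τ.length * τ'.length * co (j + 1)) := by
  have hanti : ∀ x y, β x y = - β y x := by
    intro x y
    have h := halt (x + y)
    simp only [map_add, LinearMap.add_apply, halt] at h
    linarith
  have hco := (co_pos (j + 1)).le
  intro N
  induction N using Nat.strong_induction_on with
  | _ N ih =>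
    -- the main case
    have key : ∀ (t t' : Tr) (p p' : List Tr), (t :: p).length + (t' :: p').length = N →
        Spec j (t :: p) → Spec j (t' :: p') → p ≠ p' → p'.length ≤ p.length →
        |β (vec (t :: p)) (vec (t' :: p'))| ≤
          9 ^ j * (1 + (t :: p).length * (t' :: p').length * co (j + 1)) := by
      intro t t' p p' hN hτ hτ' hne hlen
      have h1 : ∀ s ∈ (t' :: p'), t.key ≠ s.key := by
        intro s hs hk
        obtain ⟨r, hr, hcr⟩ := hτ'.mem_code hs
        rw [← hk, hτ.2.2.2.2] at hcr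
        have := code_inj hcr
        subst this
        have hl := hr.length_le
        simp only [List.length_cons] at hl
        have heq : (s :: p) = (t' :: p') := hr.eq_of_length (by simp; omega)
        exact hne (List.cons.inj heq).2
      have h2 := TT_unmatched hβ (le_refl j) hτ.2.1 (ir_le_of_key hτ.2.2.2.1) hτ' h1
      have h3 := (abs_le_TT β t (t' :: p')).trans h2
      have h4 := ih (p.length + (t' :: p').length) (by simp at hN ⊢; omega) p (t' :: p') rfl
        hτ.1 hτ'
      rw [vec_cons t p, map_add, LinearMap.add_apply]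
      refine (abs_add_le _ _).trans ?_
      simp only [List.length_cons] at *
      push_cast at *
      nlinarith
    intro τ τ' hN hτ hτ'
    cases τ with
    | nil =>
      simp only [vec_nil, map_zero, LinearMap.zero_apply, abs_zero]
      positivity
    | cons t p =>
      cases τ' with
      | nil =>
        simp only [vec_nil, map_zero, abs_zero]
        positivity
      | cons t' p' =>
        by_cases hpp : p = p'
        · subst hpp
          have h1 := pair_le hβ (le_refl j) hτ.2.1 hτ'.2.1
          have h2 := (abs_le_TT β t p).trans (TT_unmatched hβ (le_refl j) hτ.2.1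
            (ir_le_of_key hτ.2.2.2.1) hτ.1 (head_key hτ.1 hτ.2.2.2.2))
          have h3 := (abs_le_TT β t' p).trans (TT_unmatched hβ (le_refl j) hτ'.2.1
            (ir_le_of_key hτ'.2.2.2.1) hτ.1 (head_key hτ.1 hτ'.2.2.2.2))
          simp only [vec_cons, map_add, LinearMap.add_apply, halt, add_zero]
          rw [hanti (vec p) t'.val]
          have h4 : |β t.val t'.val + -β t'.val (vec p) + β t.val (vec p)| ≤
              9 ^ j + p.length * (9 ^ j * co (j + 1)) + p.length * (9 ^ j * co (j + 1)) := by
            refine (abs_add_le _ _).trans (add_le_add ((abs_add_le _ _).trans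
              (add_le_add h1 (by rw [abs_neg]; exact h3))) h2)
          refine h4.trans ?_
          simp only [List.length_cons]
          push_cast
          have : (0:ℝ) ≤ 9 ^ j * co (j+1) := by positivity
          nlinarith [mul_nonneg this (sq_nonneg (p.length : ℝ))]
        · rcases le_total p'.length p.length with h | h
          · exact key t t' p p' hN hτ hτ' hpp h
          · have := key t' t p' p (by omega) hτ' hτ (Ne.symm hpp) h
            rw [hanti, abs_neg]
            refine this.trans (le_of_eq ?_)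
            ring

/-- norm of the vector of a list -/
theorem norm_class {β : F →ₗ[ℝ] F →ₗ[ℝ] ℝ} (hβ : Ctrl β) (j : ℕ) (τ : List Tr) (hτ : Spec j τ) :
    |β (vec τ) (vec τ)| ≤ 9 ^ j * (τ.length + τ.length ^ 2 * co (j + 1)) := by
  have hco := (co_pos (j + 1)).le
  induction τ with
  | nil => simp
  | cons t p ih =>
    have h1 := pair_le hβ (le_refl j) hτ.2.1 hτ.2.1
    have h2 := (abs_le_TT β t p).trans (TT_unmatched hβ (le_refl j) hτ.2.1
      (ir_le_of_key hτ.2.2.2.1) hτ.1 (head_key hτ.1 hτ.2.2.2.2))
    have h3 := (abs_le_TT β.flip t p).trans (TT_unmatched hβ.flip (le_refl j) hτ.2.1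
      (ir_le_of_key hτ.2.2.2.1) hτ.1 (head_key hτ.1 hτ.2.2.2.2))
    rw [LinearMap.flip_apply] at h3
    have h4 := ih hτ.1
    simp only [vec_cons, map_add, LinearMap.add_apply]
    have h5 : |β t.val t.val + β (vec p) t.val + (β t.val (vec p) + β (vec p) (vec p))| ≤
        9 ^ j + p.length * (9 ^ j * co (j + 1)) + (p.length * (9 ^ j * co (j + 1)) +
        9 ^ j * (p.length + p.length ^ 2 * co (j + 1))) :=
      (abs_add_le _ _).trans (add_le_add ((abs_add_le _ _).trans (add_le_add h1 h3))
        ((abs_add_le _ _).trans (add_le_add h2 h4)))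
    refine h5.trans ?_
    simp only [List.length_cons]
    push_cast
    have : (0:ℝ) ≤ 9 ^ j * co (j+1) := by positivity
    nlinarith

/-- large trees against a list -/
lemma TT_large {β : F →ₗ[ℝ] F →ₗ[ℝ] ℝ} (hβ : Ctrl β) {n j : ℕ} (hnj : n ≤ j) {t : Tr}
    (ht : t.Adm n) (hir : t.ir ≤ co (j + 1)) {τ : List Tr} (hτ : Spec j τ) :
    TT β t τ ≤ 9 ^ j * (1 + τ.length * co (j + 1)) := by
  have hco := (co_pos (j + 1)).le
  induction τ with
  | nil => simp [TT]
  | cons s τ ih =>
    rw [TT_cons]
    by_cases hk : t.key = s.key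
    · have h1 : ∀ r ∈ τ, t.key ≠ r.key := by
        rw [hk]; exact head_key hτ.1 hτ.2.2.2.2
      have h2 := TT_unmatched hβ hnj ht hir hτ.1 h1
      have h3 := pair_le hβ hnj ht hτ.2.1
      rw [List.length_cons]
      push_cast
      have : (0:ℝ) ≤ 9 ^ j * co (j+1) := by positivity
      nlinarith
    · have h1 := ih hτ.1
      have h2 := pairing hβ ht hτ.2.1
      rw [if_neg hk] at h2
      have h3 : max t.ir s.ir ≤ co (j + 1) := max_le hir (ir_le_of_key hτ.2.2.2.1)
      have h4 : |β t.val s.val| ≤ 9 ^ j * co (j + 1) :=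
        h2.trans (mul_le_mul (pow39 hnj) h3 ((Tr.ir_nonneg t).trans (le_max_left _ _)) (by positivity))
      rw [List.length_cons]
      push_cast
      nlinarith

lemma len_co (j : ℕ) : (len j : ℝ) * co (j + 1) ≤ 1 ∧ (len j : ℝ) ^ 2 * co (j + 1) ≤ 1 := by
  have h1 : (len j : ℝ) ≤ mu (j + 1) := by exact_mod_cast len_le_mu j
  have h2 : (1:ℝ) ≤ len j := by exact_mod_cast len_pos j
  have h3 : (len j : ℝ) ^ 2 * co (j + 1) ≤ 1 := by
    unfold co
    have h4 : (0:ℝ) < mu (j + 1) := by exact_mod_cast mu_pos (j + 1)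
    rw [mul_inv_le_iff₀ (by positivity), one_mul]
    gcongr
  refine ⟨?_, h3⟩
  refine le_trans ?_ h3
  apply mul_le_mul_of_nonneg_right _ (co_pos _).le
  nlinarith

lemma TT_all {β : F →ₗ[ℝ] F →ₗ[ℝ] ℝ} (hβ : Ctrl β) {j : ℕ} {τ : List Tr} (hτ : Spec j τ)
    (hlen : τ.length ≤ len j) (t : Tr) : ∀ {n : ℕ}, n ≤ j → t.Adm n →
    TT β t τ ≤ 2 * 9 ^ j * G j 0 ∧ (t.key.1 = true → TT β t τ ≤ 2 * 9 ^ j * G j t.key.2) ∧
      (t.key.1 = false → TT β t τ ≤ 2 * 9 ^ j) := by
  have hG : ∀ q, (1:ℝ) ≤ G j q := fun q => by exact_mod_cast G_pos j q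
  have hlarge : ∀ {t : Tr} {n : ℕ}, n ≤ j → t.Adm n → t.ir ≤ co (j + 1) →
      TT β t τ ≤ 2 * 9 ^ j := by
    intro t n hn ht hir
    refine (TT_large hβ hn ht hir hτ).trans ?_
    have h1 : (τ.length : ℝ) * co (j + 1) ≤ 1 := by
      refine le_trans ?_ (len_co j).1
      apply mul_le_mul_of_nonneg_right _ (co_pos _).le
      exact_mod_cast hlen
    have : (0:ℝ) < 9 ^ j := by positivity
    nlinarith
  induction t with
  | leaf m c =>
    intro n hn ht
    have h := hlarge hn ht (co_pos _).le
    refine ⟨h.trans ?_, fun h => by simp [Tr.key] at h, fun _ => h⟩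
    have := hG 0
    have : (0:ℝ) < 9 ^ j := by positivity
    nlinarith
  | node q ε f ih =>
    intro n hn ht
    have main : TT β (Tr.node q ε f) τ ≤ 2 * 9 ^ j * G j q := by
      by_cases hq : j < q
      · rw [G_top j q hq, Nat.cast_one, mul_one]
        exact hlarge hn ht (co_anti hq)
      · push Not at hq
        cases n with
        | zero => exact ht.elim
        | succ k =>
          have hchild : ∀ i c, TT β (f i c) τ ≤ 2 * 9 ^ j * G j (q + 1) := by
            intro i c
            have h1 := ih i c (n := k) (by omega) (ht.1 i c)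
            have h2 := ht.2.1 i c
            have h9 : (0:ℝ) < 9 ^ j := by positivity
            rcases hb : (f i c).key.1 with _ | _
            · have := h1.2.2 hb
              have := hG (q + 1)
              nlinarith
            · have h3 := h1.2.1 hb
              have h4 : (G j (f i c).key.2 : ℝ) ≤ G j (q + 1) := by
                exact_mod_cast G_anti j (h2 hb)
              refine h3.trans ?_
              gcongr
          have h5 : TT β (Tr.node q ε f) τ ≤ co q * ∑ i, ∑ c, TT β (f i c) τ := by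
            clear ih hchild hlen hτ hlarge
            induction τ with
            | nil => simp [TT]
            | cons s τ ih =>
              simp only [TT_cons, Finset.sum_add_distrib, mul_add]
              apply add_le_add _ ih
              have := abs_val_node (β.flip s.val) q ε f
              simpa [LinearMap.flip_apply] using this
          refine h5.trans ?_
          have h6 : ∑ i : Fin (M q), ∑ c : Bool, TT β (f i c) τ ≤
              ∑ i : Fin (M q), ∑ c : Bool, 2 * 9 ^ j * (G j (q + 1) : ℝ) :=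
            Finset.sum_le_sum fun i _ => Finset.sum_le_sum fun c _ => hchild i c
          refine (mul_le_mul_of_nonneg_left h6 (co_pos q).le).trans (le_of_eq ?_)
          simp only [Finset.sum_const, Finset.card_univ, Fintype.card_bool,
            Fintype.card_fin, nsmul_eq_mul]
          rw [G_succ j q hq]
          have := M_mul_co q
          push_cast
          linear_combination (2 * 2 * 9 ^ j * (G j (q + 1) : ℝ)) * this
    refine ⟨main.trans ?_, fun _ => main, fun h => by simp [Tr.key] at h⟩
    have : (G j q : ℝ) ≤ G j 0 := by exact_mod_cast G_anti j (Nat.zero_le q)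
    gcongr

/-- pairing between different classes -/
theorem cross_class {β : F →ₗ[ℝ] F →ₗ[ℝ] ℝ} (hβ : Ctrl β) {i j : ℕ} (hij : i ≤ j)
    {τ τ' : List Tr} (hτ : Spec i τ) (hτ' : Spec j τ') (hlen : τ'.length ≤ len j) :
    |β (vec τ) (vec τ')| ≤ τ.length * (2 * 9 ^ j * G j 0) := by
  induction τ with
  | nil => simp
  | cons t p ih =>
    have h1 := ih hτ.1
    have h2 := (abs_le_TT β t τ').trans (TT_all hβ hτ' hlen t hij hτ.2.1).1
    rw [vec_cons, map_add, LinearMap.add_apply, List.length_cons]
    refine (abs_add_le _ _).trans ?_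
    push_cast
    linarith

end Pool.Agent.WSC
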