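import Mathlib

/-!
# Trees and the pairing estimate (counterexample for MP_4285bb_an)
-/

set_option autoImplicit false
open Finset

namespace Pool.Agent.WSC

/-- fast growing sequence of widths -/
def mu (q : ℕ) : ℕ := 2 ^ (32 * 8 ^ q)
/-- fast growing sequence of inverse coefficients -/
def nu (j : ℕ) : ℕ := 2 ^ (124 * 8 ^ j)

lemma mu_pos (q : ℕ) : 0 < mu q := by unfold mu; positivity
lemma nu_pos (q : ℕ) : 0 < nu q := by unfold nu; positivity

lemma mu_succ (q : ℕ) : 2 * mu q ^ 2 ≤ mu (q + 1) := by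
  unfold mu
  rw [← pow_mul, ← pow_succ']
  apply Nat.pow_le_pow_right (by norm_num)
  have : 1 ≤ 8 ^ q := Nat.one_le_pow _ _ (by norm_num)
  rw [pow_succ]; omega

lemma mu_mono : Monotone mu := by
  intro a b h
  unfold mu
  apply Nat.pow_le_pow_right (by norm_num)
  have := Nat.pow_le_pow_right (n := 8) (by norm_num) h
  omega

lemma le_mu (q : ℕ) : q ≤ mu q := by
  unfold mu
  have h1 : q < 2 ^ q := Nat.lt_two_pow_self
  have h2 : q ≤ 32 * 8 ^ q := by
    have : q < 8 ^ q := Nat.lt_pow_self (by norm_num)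
    omega
  exact h1.le.trans (Nat.pow_le_pow_right (by norm_num) h2)

/-- number of slots of a node of weight `q` -/
def M (q : ℕ) : ℕ := mu q ^ 4

lemma M_pos (q : ℕ) : 0 < M q := by unfold M; exact pow_pos (mu_pos q) 4

/-- length bound of special lists of class `j` -/
def len (j : ℕ) : ℕ := 4 ^ j * nu j ^ 2

lemma len_pos (j : ℕ) : 0 < len j := by
  unfold len; exact Nat.mul_pos (by positivity) (pow_pos (nu_pos j) 2)

lemma len_le_mu (j : ℕ) : len j ≤ mu (j + 1) := by
  unfold len mu nu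
  rw [show (4:ℕ) = 2 ^ 2 by norm_num, ← pow_mul, ← pow_mul, ← pow_add]
  apply Nat.pow_le_pow_right (by norm_num)
  have : j < 8 ^ j := Nat.lt_pow_self (by norm_num)
  rw [pow_succ]; omega

/-- product of the widths -/
def G (j q : ℕ) : ℕ := ∏ i ∈ Finset.Ico q (j + 1), (2 * mu i ^ 2)

lemma G_pos (j q : ℕ) : 0 < G j q := by
  unfold G
  apply Finset.prod_pos
  intro i _
  have := mu_pos i
  positivity

lemma G_succ (j q : ℕ) (h : q ≤ j) : G j q = 2 * mu q ^ 2 * G j (q + 1) := by
  unfold G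
  rw [Finset.prod_eq_prod_Ico_succ_bot (by omega : q < j + 1)]

lemma G_anti (j : ℕ) : Antitone (G j) := by
  intro a b h
  unfold G
  apply Finset.prod_le_prod_of_subset_of_one_le'
  · intro x hx
    simp only [Finset.mem_Ico] at hx ⊢
    omega
  · intro i _ _
    have := mu_pos i
    have : 1 ≤ mu i ^ 2 := Nat.one_le_pow _ _ this
    omega

lemma G_top (j q : ℕ) (h : j < q) : G j q = 1 := by
  unfold G
  rw [Finset.Ico_eq_empty (by omega), Finset.prod_empty]

lemma G_le (j : ℕ) : G j 0 ≤ 2 ^ (74 * 8 ^ j + j) := by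
  unfold G
  induction j with
  | zero => 
    simp [mu]
  | succ j ih =>
    rw [Finset.prod_Ico_succ_top (by omega)]
    refine (Nat.mul_le_mul ih (le_refl _)).trans ?_
    unfold mu
    rw [← pow_mul, ← pow_succ', ← pow_add]
    apply Nat.pow_le_pow_right (by norm_num)
    have : 1 ≤ 8 ^ j := Nat.one_le_pow _ _ (by norm_num)
    rw [pow_succ]; omega

end Pool.Agent.WSC
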