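import Pool.Agent.Lib_helper47.WSC.Null

/-!
# Symmetric forms are weakly sequentially continuous (counterexample for MP_4285bb_an)
-/

set_option autoImplicit false
open Finset Filter Topology

namespace Pool.Agent.WSC

/-- children of a tree -/
def child (t : Tr) (j : ℕ) (c : Bool) : Tr :=
  match t with
  | Tr.leaf _ _ => Tr.leaf 0 false
  | Tr.node q _ f => if h : j < M q then f ⟨j, h⟩ c else Tr.leaf 0 false

lemma child_adm {t : Tr} {n : ℕ} (h : t.Adm (n + 1)) (j : ℕ) (c : Bool) : (child t j c).Adm n := by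
  cases t with
  | leaf m c => simp only [child]; trivial
  | node q ε f =>
    simp only [child]
    split_ifs with hj
    · exact h.1 _ _
    · trivial

lemma abs_le_child (g : F →ₗ[ℝ] ℝ) (t : Tr) {N : ℕ} (hN : t.ind = N) :
    |g t.val| ≤ |g (e N false)| + |g (e N true)| +
      ∑ j ∈ range (M N), ∑ c : Bool, |g (child t j c).val| := by
  cases t with
  | leaf m c =>
    have hm : m = N := hN
    subst hm
    have h1 : 0 ≤ ∑ j ∈ range (M m), ∑ c' : Bool, |g (child (Tr.leaf m c) j c').val| := by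
      positivity
    have h2 : |g (Tr.leaf m c).val| ≤ |g (e m false)| + |g (e m true)| := by
      cases c
      · exact le_add_of_nonneg_right (abs_nonneg _)
      · exact le_add_of_nonneg_left (abs_nonneg _)
    linarith
  | node q ε f =>
    have hm : q = N := hN
    subst hm
    refine (abs_val_node g q ε f).trans ?_
    have h1 : ∑ j, ∑ c, |g (f j c).val| =
        ∑ j ∈ range (M q), ∑ c : Bool, |g (child (Tr.node q ε f) j c).val| := by
      rw [← Fin.sum_univ_eq_sum_range (fun j => ∑ c : Bool, |g (child (Tr.node q ε f) j c).val|)]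
      apply Finset.sum_congr rfl
      intro j _
      apply Finset.sum_congr rfl
      intro c _
      simp only [child]
      rw [dif_pos j.2]
    rw [h1]
    have h2 : 0 ≤ ∑ j ∈ range (M q), ∑ c : Bool, |g (child (Tr.node q ε f) j c).val| := by
      positivity
    have h3 := co_le_one q
    have h4 := abs_nonneg (g (e q false))
    have h5 := abs_nonneg (g (e q true))
    nlinarith

lemma abs_le_zero {g : F →ₗ[ℝ] ℝ} {t : Tr} (ht : t.Adm 0) {N : ℕ} (hN : t.ind = N) :
    |g t.val| ≤ |g (e N false)| + |g (e N true)| := by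
  cases t with
  | leaf m c =>
    have hm : m = N := hN
    subst hm
    cases c
    · exact le_add_of_nonneg_right (abs_nonneg _)
    · exact le_add_of_nonneg_left (abs_nonneg _)
  | node q ε f => exact ht.elim

/-- good families of functionals -/
structure Good {ι : Type} (𝒰 : Ultrafilter ι) (g : ι → F →ₗ[ℝ] ℝ) : Prop where
  pt : ∀ v : F, Tendsto (fun k => g k v) 𝒰 (𝓝 0)
  tr : ∀ (n : ℕ) (a : ι → Tr), (∀ k, (a k).Adm n) → Tendsto (fun k => (a k).ind) 𝒰 atTop →
    Tendsto (fun k => g k (a k).val) 𝒰 (𝓝 0)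

variable {ι : Type} {𝒰 : Ultrafilter ι} {g : ι → F →ₗ[ℝ] ℝ}

lemma exists_const_of_not_tendsto {u : ι → ℕ} (h : ¬ Tendsto u 𝒰 atTop) :
    ∃ N, ∀ᶠ k in (𝒰 : Filter ι), u k = N := by
  rw [tendsto_atTop] at h
  push Not at h
  obtain ⟨m, hm⟩ := h
  have h1 : ∀ᶠ k in (𝒰 : Filter ι), u k ∈ Finset.range m := by
    have h0 := Ultrafilter.eventually_not.2 (show ¬ ∀ᶠ k in (𝒰 : Filter ι), m ≤ u k by
      simpa using hm)
    filter_upwards [h0] with k hk
    rw [Finset.mem_range]; omega
  by_contra hcon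
  push Not at hcon
  have h2 : ∀ N, ∀ᶠ k in (𝒰 : Filter ι), u k ≠ N := fun N =>
    Ultrafilter.eventually_not.2 (by simpa using hcon N)
  have h3 : ∀ᶠ k in (𝒰 : Filter ι), ∀ N ∈ Finset.range m, u k ≠ N := by
    rw [Filter.eventually_all_finset]
    intro N _
    exact h2 N
  have h4 := (h1.and h3).exists
  obtain ⟨k, hk1, hk2⟩ := h4
  exact hk2 _ hk1 rfl

theorem Good.tree (hg : Good 𝒰 g) (n : ℕ) : ∀ t : ι → Tr, (∀ k, (t k).Adm n) →
    Tendsto (fun k => g k (t k).val) 𝒰 (𝓝 0) := by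
  induction n with
  | zero =>
    intro t ht
    by_cases h : Tendsto (fun k => (t k).ind) 𝒰 atTop
    · exact hg.tr 0 t ht h
    · obtain ⟨N, hN⟩ := exists_const_of_not_tendsto h
      have h1 : Tendsto (fun k => |g k (e N false)| + |g k (e N true)|) 𝒰 (𝓝 0) := by
        have := (hg.pt (e N false)).abs.add (hg.pt (e N true)).abs
        simpa using this
      refine squeeze_zero_norm' ?_ h1
      simp_rw [Real.norm_eq_abs]
      filter_upwards [hN] with k hk
      exact abs_le_zero (ht k) hk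
  | succ n ih =>
    intro t ht
    by_cases h : Tendsto (fun k => (t k).ind) 𝒰 atTop
    · exact hg.tr (n + 1) t ht h
    · obtain ⟨N, hN⟩ := exists_const_of_not_tendsto h
      have h1 : Tendsto (fun k => |g k (e N false)| + |g k (e N true)| +
          ∑ j ∈ range (M N), ∑ c : Bool, |g k (child (t k) j c).val|) 𝒰 (𝓝 0) := by
        have h2 := (hg.pt (e N false)).abs.add (hg.pt (e N true)).abs
        have h3 : Tendsto (fun k => ∑ j ∈ range (M N), ∑ c : Bool, |g k (child (t k) j c).val|) 𝒰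
            (𝓝 (∑ j ∈ range (M N), ∑ c : Bool, |0|)) := by
          apply tendsto_finsetSum
          intro j _
          apply tendsto_finsetSum
          intro c _
          exact (ih (fun k => child (t k) j c) (fun k => child_adm (ht k) j c)).abs
        have := h2.add h3
        simpa using this
      refine squeeze_zero_norm' ?_ h1
      simp_rw [Real.norm_eq_abs]
      filter_upwards [hN] with k hk
      exact abs_le_child (g k) (t k) hk

theorem Good.list (hg : Good 𝒰 g) (n : ℕ) (L : ℕ) : ∀ τ : ι → List Tr,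
    (∀ k, ∀ t ∈ τ k, t.Adm n) → (∀ k, (τ k).length ≤ L) →
    Tendsto (fun k => g k (vec (τ k))) 𝒰 (𝓝 0) := by
  induction L with
  | zero =>
    intro τ _ hL
    have : ∀ k, g k (vec (τ k)) = 0 := by
      intro k
      have := List.eq_nil_of_length_eq_zero (Nat.le_zero.1 (hL k))
      rw [this, vec_nil, map_zero]
    simp_rw [this]
    exact tendsto_const_nhds
  | succ L ih =>
    intro τ hτ hL
    have h1 := hg.tree n (fun k => (τ k).headD (Tr.leaf 0 false)) (by
      intro k
      have h := hτ k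
      generalize τ k = σ at *
      cases σ with
      | nil => trivial
      | cons t σ => exact h t List.mem_cons_self)
    have h2 := ih (fun k => (τ k).tail) (fun k t ht => hτ k t (List.mem_of_mem_tail ht)) (by
      intro k
      rw [List.length_tail]
      have := hL k
      omega)
    have h3 := h1.abs.add h2.abs
    rw [abs_zero, add_zero] at h3
    refine squeeze_zero_norm ?_ h3
    intro k
    rw [Real.norm_eq_abs]
    generalize τ k = σ
    cases σ with
    | nil =>
      simp only [vec_nil, map_zero, abs_zero]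
      positivity
    | cons t σ =>
      rw [vec_cons, map_add]
      exact abs_add_le _ _

lemma Spec.adm {j : ℕ} {τ : List Tr} (h : Spec j τ) : ∀ t ∈ τ, t.Adm j := fun _ ht => (h.mem ht).1

theorem Good.gam (hg : Good 𝒰 g) (i : ℕ) (x : ι → F) (hx : ∀ k, x k ∈ Gam i) :
    Tendsto (fun k => g k (x k)) 𝒰 (𝓝 0) := by
  cases i with
  | zero =>
    choose m c hmc using hx
    have := hg.tree 0 (fun k => Tr.leaf (m k) (c k)) (fun _ => trivial)
    refine this.congr fun k => ?_
    rw [hmc k]; rfl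
  | succ j =>
    choose τ hτ hl hx using hx
    have h1 := hg.list j (len j) τ (fun k => (hτ k).adm) hl
    have h2 := h1.const_mul (nu j : ℝ)⁻¹
    rw [mul_zero] at h2
    refine h2.congr fun k => ?_
    rw [hx k, map_smul, smul_eq_mul]

theorem Good.W (hg : Good 𝒰 g) (i : ℕ) (x : ι → F) (hx : ∀ k, x k ∈ W i) :
    Tendsto (fun k => g k (x k)) 𝒰 (𝓝 0) := by
  have h1 : ∀ k, ∃ y ∈ Gam i, |g k (x k)| ≤ 2 * |g k y| := by
    intro k
    by_contra hcon
    push Not at hcon
    have h2 := W_bound (g k) (C := |g k (x k)| / 2) (fun y hy => by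
      have := hcon y hy; linarith) (hx k)
    obtain ⟨y, hy⟩ := gam_nonempty i
    have h3 := hcon y hy
    have h4 := abs_nonneg (g k y)
    linarith
  choose y hy hle using h1
  have h2 := (hg.gam i y hy).abs.const_mul 2
  rw [abs_zero, mul_zero] at h2
  exact squeeze_zero_norm (fun k => by rw [Real.norm_eq_abs]; exact hle k) h2

theorem Good.Ba (hg : Good 𝒰 g) (α : ℕ × ℕ) (x : ι → F) (hx : ∀ k, x k ∈ Ba α) :
    Tendsto (fun k => g k (x k)) 𝒰 (𝓝 0) := by
  have h1 := (hg.W α.1 (fun k => ((1 / 4 : ℝ) ^ α.2) • x k) (fun k => (hx k).1)).const_mul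
    ((4:ℝ) ^ α.2)
  rw [mul_zero] at h1
  refine h1.congr fun k => ?_
  rw [map_smul, smul_eq_mul, ← mul_assoc, ← mul_pow]
  norm_num

theorem Good.fin (hg : Good 𝒰 g) (J : Finset (ℕ × ℕ)) (c : ι → ℕ × ℕ → ℝ) (b : ι → ℕ × ℕ → F)
    (hc : ∀ k α, |c k α| ≤ 1) (hb : ∀ k α, b k α ∈ WSC.Ba α) :
    Tendsto (fun k => g k (∑ α ∈ J, c k α • b k α)) 𝒰 (𝓝 0) := by
  simp_rw [map_sum, map_smul, smul_eq_mul]
  have : Tendsto (fun k => ∑ α ∈ J, c k α * g k (b k α)) 𝒰 (𝓝 (∑ α ∈ J, (0:ℝ))) := by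
    apply tendsto_finsetSum
    intro α _
    have h1 := (hg.Ba α (fun k => b k α) (fun k => hb k α)).abs
    rw [abs_zero] at h1
    refine squeeze_zero_norm (fun k => ?_) h1
    rw [Real.norm_eq_abs, abs_mul]
    have := hc k α
    have := abs_nonneg (g k (b k α))
    nlinarith
  simpa using this

/-- splitting of a representable vector along a finite set -/
lemma split_J {s : Finset (ℕ × ℕ)} {x : F} (h : Rep 1 s x) (J : Finset (ℕ × ℕ)) :
    ∃ (c : ℕ × ℕ → ℝ) (b : ℕ × ℕ → F) (y : F), (∀ α, |c α| ≤ 1) ∧ (∀ α, 0 ≤ c α) ∧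
      (∀ α, b α ∈ Ba α) ∧ Rep 1 (s \ J) y ∧ x = ∑ α ∈ J, c α • b α + y ∧
      ∑ α ∈ J, c α ^ 4 ≤ 1 := by
  obtain ⟨c, b, hc, hb, h1, rfl⟩ := h
  have hle : ∀ α ∈ s, c α ≤ 1 := fun α hα => Rep.le_one h1 hα
  refine ⟨fun α => if α ∈ s then c α else 0, b, ∑ α ∈ s \ J, c α • b α, ?_, ?_, hb, ?_, ?_, ?_⟩
  · intro α
    dsimp only
    split_ifs with h
    · rw [abs_of_nonneg (hc α)]; exact hle α h
    · simp
  · intro α
    dsimp only
    split_ifs with h
    · exact hc α
    · exact le_refl _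
  · exact ⟨c, b, hc, hb, (Finset.sum_le_sum_of_subset_of_nonneg Finset.sdiff_subset
      (fun α _ _ => by have := hc α; positivity)).trans h1, rfl⟩
  · have h2 : ∑ α ∈ J, (if α ∈ s then c α else 0) • b α = ∑ α ∈ s ∩ J, c α • b α := by
      simp_rw [ite_smul, zero_smul]
      rw [← Finset.sum_filter]
      apply Finset.sum_congr _ (fun _ _ => rfl)
      ext α; simp [and_comm]
    rw [h2, Finset.sum_inter_add_sum_sdiff]
  · have h2 : ∑ α ∈ J, (if α ∈ s then c α else 0) ^ 4 = ∑ α ∈ s ∩ J, c α ^ 4 := by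
      have : ∀ α, (if α ∈ s then c α else 0) ^ 4 = if α ∈ s then c α ^ 4 else 0 := by
        intro α; split_ifs <;> simp
      simp_rw [this]
      rw [← Finset.sum_filter]
      apply Finset.sum_congr _ (fun _ _ => rfl)
      ext α; simp [and_comm]
    rw [h2]
    exact (Finset.sum_le_sum_of_subset_of_nonneg Finset.inter_subset_left
      (fun α _ _ => by have := hc α; positivity)).trans h1

/-- bounded forms -/
def BddForm (S : F →ₗ[ℝ] F →ₗ[ℝ] ℝ) : Prop := ∃ C : ℝ, ∀ x ∈ B, ∀ y ∈ B, |S x y| ≤ C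

lemma BddForm.apply {S : F →ₗ[ℝ] F →ₗ[ℝ] ℝ} (h : BddForm S) (v : F) :
    ∃ C : ℝ, ∀ y ∈ B, |S v y| ≤ C := by
  obtain ⟨C, hC⟩ := h
  obtain ⟨r, hr, x, hx, rfl⟩ := exists_smul_B v
  refine ⟨r * C, fun y hy => ?_⟩
  rw [map_smul, LinearMap.smul_apply, smul_eq_mul, abs_mul, abs_of_pos hr]
  exact mul_le_mul_of_nonneg_left (hC x hx y hy) hr.le

/-- (N3) -/
theorem tree_null {S : F →ₗ[ℝ] F →ₗ[ℝ] ℝ} (hsym : ∀ x y, S x y = S y x) (hS : BddForm S)
    (n : ℕ) (a : ι → Tr) (ha : ∀ k, (a k).Adm n) (hind : Tendsto (fun k => (a k).ind) 𝒰 atTop)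
    (y : ι → F) (hy : ∀ k, y k ∈ B) : Tendsto (fun k => S (a k).val (y k)) 𝒰 (𝓝 0) := by
  obtain ⟨C, hC⟩ := id hS
  have hgood : Good 𝒰 (fun k => S (a k).val) := by
    refine ⟨fun v => ?_, fun n' b hb hbi => ?_⟩
    · obtain ⟨C', hC'⟩ := hS.apply v
      rw [Metric.tendsto_nhds]
      intro ε hε
      obtain ⟨m, hm⟩ := tree_small (S v) hC' n (half_pos hε)
      filter_upwards [hind.eventually_ge_atTop m] with k hk
      rw [Real.dist_eq, sub_zero, hsym]
      exact lt_of_le_of_lt (hm _ (ha k) hk) (half_lt_self hε)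
    · rw [Metric.tendsto_nhds]
      intro ε hε
      obtain ⟨m, hm⟩ := kill S hsym hC (max n n') (half_pos hε)
      filter_upwards [hind.eventually_ge_atTop m, hbi.eventually_ge_atTop m] with k hk hk'
      rw [Real.dist_eq, sub_zero]
      exact lt_of_le_of_lt (hm _ _ ((ha k).mono (le_max_left _ _))
        ((hb k).mono (le_max_right _ _)) hk hk') (half_lt_self hε)
  rw [Metric.tendsto_nhds]
  intro ε hε
  obtain ⟨J, m, hJ⟩ := tree_off S hC n (half_pos (half_pos hε))
  choose s hs using hy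
  choose c b z hc hc0 hb hz hyz _ using fun k => split_J (hs k) J
  have h1 := hgood.fin J c b hc hb
  rw [Metric.tendsto_nhds] at h1
  filter_upwards [h1 (ε / 2) (half_pos hε), hind.eventually_ge_atTop m] with k hk hk'
  rw [Real.dist_eq, sub_zero] at *
  have h2 := hJ (a k) (ha k) hk' _ _ Finset.sdiff_disjoint (hz k)
  rw [hyz k, map_add]
  refine lt_of_le_of_lt (abs_add_le _ _) ?_
  linarith

/-- (N4) -/
theorem block_off {S : F →ₗ[ℝ] F →ₗ[ℝ] ℝ} (hsym : ∀ x y, S x y = S y x) (hS : BddForm S)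
    (α : ℕ × ℕ) {ε : ℝ} (hε : 0 < ε) :
    ∃ J : Finset (ℕ × ℕ), ∀ x ∈ Ba α, ∀ s y, Disjoint s J → Rep 1 s y → |S x y| ≤ ε := by
  obtain ⟨C, hC⟩ := id hS
  by_contra hcon
  push Not at hcon
  choose x hx s y hd hy hxy using hcon
  have hgood : Good (Ultrafilter.of (atTop : Filter (Finset (ℕ × ℕ)))) (fun J => S (y J)) := by
    have hle := Ultrafilter.of_le (atTop : Filter (Finset (ℕ × ℕ)))
    refine ⟨fun v => ?_, fun n' b hb hbi => ?_⟩
    · obtain ⟨C', hC'⟩ := hS.apply v
      rw [Metric.tendsto_nhds]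
      intro δ hδ
      obtain ⟨J, hJ⟩ := off_small (S v) hC' (half_pos hδ)
      filter_upwards [hle (eventually_ge_atTop J)] with k hk
      rw [Real.dist_eq, sub_zero, hsym]
      exact lt_of_le_of_lt (hJ _ _ (Finset.disjoint_of_subset_right hk (hd k)) (hy k))
        (half_lt_self hδ)
    · rw [Metric.tendsto_nhds]
      intro δ hδ
      obtain ⟨J, m, hJ⟩ := tree_off S hC n' (half_pos hδ)
      filter_upwards [hle (eventually_ge_atTop J), hbi.eventually_ge_atTop m] with k hk hk'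
      rw [Real.dist_eq, sub_zero, hsym]
      exact lt_of_le_of_lt (hJ _ (hb k) hk' _ _ (Finset.disjoint_of_subset_right hk (hd k)) (hy k))
        (half_lt_self hδ)
  have h1 := hgood.Ba α x hx
  rw [Metric.tendsto_nhds] at h1
  obtain ⟨k, hk⟩ := (h1 ε hε).exists
  rw [Real.dist_eq, sub_zero, hsym] at hk
  exact absurd (hxy k) (not_lt.2 hk.le)

/-- (N5) bounded symmetric forms are null on weakly null families in the ball -/
theorem sym_null {S : F →ₗ[ℝ] F →ₗ[ℝ] ℝ} (hsym : ∀ x y, S x y = S y x) (hS : BddForm S)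
    (x y : ι → F) (hx : ∀ k, x k ∈ B) (hy : ∀ k, y k ∈ B)
    (hw : ∀ g : F →ₗ[ℝ] ℝ, (∃ C : ℝ, ∀ z ∈ B, |g z| ≤ C) → Tendsto (fun k => g (x k)) 𝒰 (𝓝 0)) :
    Tendsto (fun k => S (x k) (y k)) 𝒰 (𝓝 0) := by
  obtain ⟨C, hC⟩ := id hS
  have hgood : Good 𝒰 (fun k => S (x k)) := by
    refine ⟨fun v => ?_, fun n' b hb hbi => ?_⟩
    · simp_rw [fun k => hsym (x k) v]
      exact hw (S v) (hS.apply v)
    · simp_rw [fun k => hsym (x k) (b k).val]
      exact tree_null hsym hS n' b hb hbi x hx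
  rw [Metric.tendsto_nhds]
  intro ε hε
  obtain ⟨J0, hJ0⟩ := off_off S hC (show (0:ℝ) < ε / 4 by positivity)
  have hcard : (0:ℝ) < ε / 4 / (J0.card + 1) := by positivity
  choose Jα hJα using fun α => block_off hsym hS α hcard
  set J1 : Finset (ℕ × ℕ) := J0 ∪ J0.biUnion Jα with hJ1
  choose s hs using hx
  choose s' hs' using hy
  choose c b z hc hc0 hb hz hxz _ using fun k => split_J (hs k) J0
  choose c' b' z' hc' hc0' hb' hz' hyz' _ using fun k => split_J (hs' k) J1
  have h1 := hgood.fin J1 c' b' hc' hb'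
  rw [Metric.tendsto_nhds] at h1
  filter_upwards [h1 (ε / 4) (by positivity)] with k hk
  rw [Real.dist_eq, sub_zero] at *
  have hd1 : Disjoint (s' k \ J1) J1 := Finset.sdiff_disjoint
  -- the part of `x` off `J0` against the part of `y` off `J1`
  have h2 : |S (z k) (z' k)| ≤ ε / 4 :=
    hJ0 _ _ _ _ Finset.sdiff_disjoint
      (Finset.disjoint_of_subset_right Finset.subset_union_left hd1) (hz k) (hz' k)
  have h3 : |S (∑ α ∈ J0, c k α • b k α) (z' k)| ≤ ε / 4 := by
    rw [map_sum, LinearMap.sum_apply]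
    refine (Finset.abs_sum_le_sum_abs _ _).trans ?_
    have h4 : ∀ α ∈ J0, |S (c k α • b k α) (z' k)| ≤ ε / 4 / (J0.card + 1) := by
      intro α hα
      rw [map_smul, LinearMap.smul_apply, smul_eq_mul, abs_mul]
      have h5 := hJα α (b k α) (hb k α) _ _ (Finset.disjoint_of_subset_right
        ((Finset.subset_biUnion_of_mem Jα hα).trans Finset.subset_union_right) hd1) (hz' k)
      have := hc k α
      have := abs_nonneg (S (b k α) (z' k))
      nlinarith
    refine (Finset.sum_le_sum h4).trans ?_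
    rw [Finset.sum_const, nsmul_eq_mul]
    have : (0:ℝ) < (J0.card:ℝ) + 1 := by positivity
    rw [mul_div_assoc', div_le_iff₀ this]
    nlinarith
  have h4 : S (x k) (y k) = S (x k) (∑ α ∈ J1, c' k α • b' k α) +
      (S (∑ α ∈ J0, c k α • b k α) (z' k) + S (z k) (z' k)) := by
    rw [← LinearMap.add_apply, ← map_add S, ← hxz k, ← map_add, ← hyz' k]
  rw [h4]
  refine lt_of_le_of_lt (abs_add_le _ _) ?_
  have h5 := abs_add_le (S (∑ α ∈ J0, c k α • b k α) (z' k)) (S (z k) (z' k))
  linarith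

end Pool.Agent.WSC
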